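import Mathlib
import Pool.Agent.Lib.AbcE.Core

/-!
# The optimised transcendental core

The zero at `(1,1)` is counted in the zero estimate, so that only one further point is needed and
almost all of the vanishing at `(1,1)` can be used for the divisibility by `M`.
-/

namespace Pool.Agent.AbcF

open Polynomial Finset Pool.Agent.AbcE

attribute [local instance] Matrix.seminormedAddCommGroup Matrix.normedAddCommGroup

/-- **Zero estimate** with multiplicities depending on the point. -/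
theorem zeroEst2 (r D d S : ℕ) (N : Fin S → ℕ) (hr : D < r) (c : ℕ → ℕ → ℚ)
    (hc : ∃ j ≤ D, ∃ l ≤ d, c j l ≠ 0)
    (x y : Fin S → ℚ) (hx : Function.Injective x) (hx0 : ∀ s, x s ≠ 0) (hy0 : ∀ s, y s ≠ 0)
    (hv : ∀ s, ∀ k < N s, ∑ j ∈ range (D + 1), ∑ l ∈ range (d + 1),
      c j l * ((j + l * r).choose k : ℚ) * x s ^ j * y s ^ l = 0) :
    ∑ s, (N s - d) ≤ (d + 1) * D := by
  classical
  set L : Finset ℕ := (range (d + 1)).filter (fun l => ent r D c 0 l ≠ 0) with hL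
  set k := L.card with hk
  have hLne : L.Nonempty := by
    obtain ⟨j, hj, l, hl, hjl⟩ := hc
    refine ⟨l, ?_⟩
    rw [hL, Finset.mem_filter, Finset.mem_range]
    refine ⟨by omega, ?_⟩
    intro h0
    have h1 : (ent r D c 0 l).coeff j = 0 := by rw [h0, coeff_zero]
    rw [coeff_ent, if_pos hj] at h1
    simp at h1
    exact hjl h1
  have hk0 : 0 < k := Finset.card_pos.2 hLne
  have hkd : k ≤ d + 1 := by
    calc k ≤ (range (d + 1)).card := Finset.card_le_card (Finset.filter_subset _ _)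
      _ = d + 1 := Finset.card_range _
  set e : Fin k → ℕ := fun i => L.orderEmbOfFin hk.symm i with he
  have heinj : Function.Injective e := (L.orderEmbOfFin hk.symm).injective
  have heL : ∀ i, e i ∈ L := fun i => L.orderEmbOfFin_mem hk.symm i
  have hec : ∀ i, ent r D c 0 (e i) ≠ 0 := fun i => (Finset.mem_filter.1 (heL i)).2
  set W := (Matrix.of fun (m i : Fin k) => ent r D c m (e i)).det with hW
  have hW0 : W ≠ 0 := det_ent_ne_zero r D hr c k e heinj hec
  have hWdeg : W.natDegree ≤ k * D := natDegree_det_ent_le r D c k e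
  have hdvd : ∀ s : Fin S, (X - C (x s)) ^ (N s - d) ∣ W := by
    intro s
    refine dvd_det_ent r D c d (N s) k hkd hk0 e (x s) (y s) (hx0 s) (hy0 s) ?_
    set ρ : ℚ := y s / x s ^ r with hρ
    -- rewrite the sum over `Fin k` as a sum over `range (d+1)`
    have h1 : ∑ i : Fin k, C (ρ ^ (e i)) * (X ^ (e i * r) * ent r D c 0 (e i))
        = ∑ l ∈ range (d + 1), C (ρ ^ l) * (X ^ (l * r) * ent r D c 0 l) := by
      have h2 : ∑ l ∈ L, C (ρ ^ l) * (X ^ (l * r) * ent r D c 0 l)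
          = ∑ l ∈ range (d + 1), C (ρ ^ l) * (X ^ (l * r) * ent r D c 0 l) := by
        rw [hL, Finset.sum_filter]
        refine Finset.sum_congr rfl ?_
        intro l _
        by_cases h : ent r D c 0 l = 0
        · simp [h]
        · simp [h]
      rw [← h2]
      have h3 : L = Finset.univ.map (L.orderEmbOfFin hk.symm).toEmbedding := by
        ext l
        simp only [Finset.mem_map, Finset.mem_univ, true_and, RelEmbedding.coe_toEmbedding]
        constructor
        · intro hl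
          have := Finset.range_orderEmbOfFin L hk.symm
          have hl' : l ∈ Set.range (L.orderEmbOfFin hk.symm) := by
            rw [this]
            exact hl
          obtain ⟨i, hi⟩ := hl'
          exact ⟨i, hi⟩
        · rintro ⟨i, rfl⟩
          exact L.orderEmbOfFin_mem hk.symm i
      conv_rhs => rw [h3]
      rw [Finset.sum_map]
      rfl
    rw [h1]
    set F : ℚ[X] := ∑ l ∈ range (d + 1), C (ρ ^ l) * (X ^ (l * r) * ent r D c 0 l) with hF
    have hF2 : F = ∑ j ∈ range (D + 1), ∑ l ∈ range (d + 1),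
        C (c j l * ρ ^ l) * X ^ (j + l * r) := by
      rw [hF, Finset.sum_comm]
      refine Finset.sum_congr rfl ?_
      intro l _
      unfold ent
      rw [Finset.mul_sum, Finset.mul_sum]
      refine Finset.sum_congr rfl ?_
      intro j _
      rw [pow_add, pow_zero, mul_one, C_mul]
      ring
    rw [X_sub_C_pow_dvd_iff]
    rw [X_pow_dvd_iff]
    intro q hq
    rw [← taylor_apply, taylor_coeff]
    rw [hF2]
    simp only [map_sum, eval_finsetSum]
    have hv' := hv s q hq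
    have hxs := hx0 s
    have h4 : ∀ j l : ℕ, (eval (x s)) ((hasseDeriv q) (C (c j l * ρ ^ l) * X ^ (j + l * r)))
        = (x s ^ q)⁻¹ * (c j l * ((j + l * r).choose q : ℚ) * x s ^ j * y s ^ l) := by
      intro j l
      rw [C_mul_X_pow_eq_monomial, hasseDeriv_monomial, eval_monomial]
      rcases lt_or_ge (j + l * r) q with hlt | hge
      · rw [Nat.choose_eq_zero_of_lt hlt]
        simp
      · have h5 : x s ^ (j + l * r - q) = x s ^ (j + l * r) * (x s ^ q)⁻¹ := by
          rw [eq_mul_inv_iff_mul_eq₀ (pow_ne_zero _ hxs), ← pow_add, Nat.sub_add_cancel hge]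
        rw [h5, hρ, div_pow, pow_add, pow_mul', ]
        have h6 : (x s ^ r) ^ l ≠ 0 := pow_ne_zero _ (pow_ne_zero _ hxs)
        field_simp
    simp only [h4]
    simp only [← Finset.mul_sum]
    rw [hv', mul_zero]
  have hprod : ∏ s : Fin S, (X - C (x s)) ^ (N s - d) ∣ W := by
    refine Finset.prod_dvd_of_coprime ?_ (fun s _ => hdvd s)
    intro s _ t _ hst
    refine IsCoprime.pow ?_
    exact isCoprime_X_sub_C_of_isUnit_sub (sub_ne_zero.2 (fun h => hst (hx h))).isUnit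
  have hdeg := natDegree_le_of_dvd hprod hW0
  rw [natDegree_prod _ _ (fun s _ => pow_ne_zero _ (X_sub_C_ne_zero _))] at hdeg
  simp only [natDegree_pow, natDegree_X_sub_C, mul_one] at hdeg
  calc ∑ s, (N s - d) ≤ W.natDegree := hdeg
    _ ≤ k * D := hWdeg
    _ ≤ (d + 1) * D := Nat.mul_le_mul_right _ hkd

/-- Siegel's lemma for the auxiliary polynomial `∑ c j l X^(j + l r)`. -/
theorem siegel2 (r D d N T : ℕ) (hN : 0 < N) (h : N * (T + 1) ≤ (D + 1) * (d + 1) * T) :
    ∃ c : ℕ → ℕ → ℤ, (∃ j ≤ D, ∃ l ≤ d, c j l ≠ 0) ∧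
      (∀ j l, |c j l| ≤ ((((D + 1) * (d + 1) * 2 ^ (D + d * r)) ^ T : ℕ) : ℤ)) ∧
      (∀ k < N, ∑ j ∈ range (D + 1), ∑ l ∈ range (d + 1),
        c j l * ((j + l * r).choose k : ℤ) = 0) := by
  classical
  let A : Matrix (Fin N) (Fin (D + 1) × Fin (d + 1)) ℤ :=
    Matrix.of fun k jl => (((jl.1 : ℕ) + (jl.2 : ℕ) * r).choose k : ℤ)
  have hcard : Fintype.card (Fin (D + 1) × Fin (d + 1)) = (D + 1) * (d + 1) := by simp
  have hcard2 : Fintype.card (Fin N) = N := by simp
  have hNn : N < (D + 1) * (d + 1) := by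
    by_contra hcon
    have h1 : (D + 1) * (d + 1) * T ≤ N * T := Nat.mul_le_mul_right T (not_lt.1 hcon)
    have h2 : N * (T + 1) = N * T + N := by ring
    omega
  obtain ⟨t, ht0, htA, htn⟩ := Int.Matrix.exists_ne_zero_int_vec_norm_le A
    (by rw [hcard, hcard2]; exact hNn) (by rw [hcard2]; omega)
  have hAn : ‖A‖ ≤ (2 : ℝ) ^ (D + d * r) := by
    rw [Matrix.norm_le_iff (by positivity)]
    intro k jl
    have h1 : ((jl.1 : ℕ) + (jl.2 : ℕ) * r).choose k ≤ 2 ^ (D + d * r) := by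
      refine (Nat.choose_le_two_pow _ _).trans (Nat.pow_le_pow_right (by norm_num) ?_)
      have h2 := jl.1.2
      have h3 : (jl.2 : ℕ) * r ≤ d * r := Nat.mul_le_mul_right r (by have := jl.2.2; omega)
      omega
    have h4 : ‖A k jl‖ = ((((jl.1 : ℕ) + (jl.2 : ℕ) * r).choose k : ℕ) : ℝ) := by
      simp [A]
    rw [h4]
    exact_mod_cast h1
  have hmax : max 1 ‖A‖ ≤ (2 : ℝ) ^ (D + d * r) :=
    max_le (one_le_pow₀ (by norm_num)) hAn
  rw [hcard, hcard2] at htn
  have hbase : (1 : ℝ) ≤ (((D + 1) * (d + 1) : ℕ) : ℝ) * max 1 ‖A‖ := by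
    have h1 : (1 : ℝ) ≤ (((D + 1) * (d + 1) : ℕ) : ℝ) := by
      exact_mod_cast Nat.succ_le_of_lt (by positivity)
    have h2 : (1 : ℝ) ≤ max 1 ‖A‖ := le_max_left _ _
    nlinarith
  have hexp : (((N : ℕ) : ℝ)) / ((((D + 1) * (d + 1) : ℕ) : ℝ) - ((N : ℕ) : ℝ)) ≤ (T : ℝ) := by
    have h1 : ((N : ℕ) : ℝ) * ((T : ℝ) + 1) ≤ (((D + 1) * (d + 1) : ℕ) : ℝ) * T := by
      exact_mod_cast h
    have h2 : ((N : ℕ) : ℝ) < (((D + 1) * (d + 1) : ℕ) : ℝ) := by
      exact_mod_cast hNn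
    rw [div_le_iff₀ (by linarith)]
    linarith
  have htn2 : ‖t‖ ≤ ((((D + 1) * (d + 1) : ℕ) : ℝ) * (2 : ℝ) ^ (D + d * r)) ^ T := by
    refine htn.trans ?_
    calc ((((D + 1) * (d + 1) : ℕ) : ℝ) * max 1 ‖A‖) ^
          (((N : ℕ) : ℝ) / ((((D + 1) * (d + 1) : ℕ) : ℝ) - ((N : ℕ) : ℝ)))
        ≤ ((((D + 1) * (d + 1) : ℕ) : ℝ) * max 1 ‖A‖) ^ (T : ℝ) :=
          Real.rpow_le_rpow_of_exponent_le hbase hexp
      _ = ((((D + 1) * (d + 1) : ℕ) : ℝ) * max 1 ‖A‖) ^ T := Real.rpow_natCast _ _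
      _ ≤ _ := by gcongr
  refine ⟨fun j l => if hj : j < D + 1 then (if hl : l < d + 1 then t (⟨j, hj⟩, ⟨l, hl⟩) else 0)
    else 0, ?_, ?_, ?_⟩
  · have : ∃ jl, t jl ≠ 0 := by
      by_contra hcon
      exact ht0 (funext fun jl => by_contra fun h => hcon ⟨jl, h⟩)
    obtain ⟨⟨⟨j, hj⟩, ⟨l, hl⟩⟩, hjl⟩ := this
    refine ⟨j, by omega, l, by omega, ?_⟩
    simp only [hj, hl, dif_pos]
    exact hjl
  · intro j l
    by_cases hj : j < D + 1
    · by_cases hl : l < d + 1
      · simp only [hj, hl, dif_pos]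
        have h1 : ‖t (⟨j, hj⟩, ⟨l, hl⟩)‖ ≤ ‖t‖ := norm_le_pi_norm t _
        have h2 := h1.trans htn2
        rw [Int.norm_eq_abs] at h2
        have h3 : ((|t (⟨j, hj⟩, ⟨l, hl⟩)| : ℤ) : ℝ)
            ≤ (((((((D + 1) * (d + 1) * 2 ^ (D + d * r)) ^ T : ℕ) : ℤ)) : ℝ)) := by
          push_cast
          push_cast at h2
          exact h2
        exact_mod_cast h3
      · simp only [hj, hl, dif_pos, dif_neg, not_false_eq_true, abs_zero]
        positivity
    · simp only [hj, dif_neg, not_false_eq_true, abs_zero]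
      positivity
  · intro k hk
    have h1 : (A.mulVec t) ⟨k, hk⟩ = 0 := by rw [htA]; rfl
    rw [Finset.sum_range]
    have h2 : ∀ j : Fin (D + 1), ∑ l ∈ range (d + 1),
        (if hj : (j : ℕ) < D + 1 then (if hl : l < d + 1 then t (⟨j, hj⟩, ⟨l, hl⟩) else 0)
          else 0) * (((j : ℕ) + l * r).choose k : ℤ)
        = ∑ l : Fin (d + 1), t (j, l) * (((j : ℕ) + (l : ℕ) * r).choose k : ℤ) := by
      intro j
      rw [Finset.sum_range]
      refine Finset.sum_congr rfl ?_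
      intro l _
      rw [dif_pos j.2, dif_pos l.2]
    simp only [h2]
    have h3 : (A.mulVec t) ⟨k, hk⟩ = ∑ j : Fin (D + 1), ∑ l : Fin (d + 1),
        t (j, l) * (((j : ℕ) + (l : ℕ) * r).choose k : ℤ) := by
      unfold Matrix.mulVec dotProduct
      rw [Fintype.sum_prod_type]
      refine Finset.sum_congr rfl ?_
      intro j _
      refine Finset.sum_congr rfl ?_
      intro l _
      simp [A, mul_comm]
    rw [← h3, h1]


/-- Vanishing modulo `M`, with two parameters. -/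
theorem vanish2 {R : Type*} [CommRing R] (r D d N N' : ℕ) (c : ℕ → ℕ → ℤ)
    (hc : ∀ k < N, ∑ j ∈ range (D + 1), ∑ l ∈ range (d + 1),
        c j l * ((j + l * r).choose k : ℤ) = 0)
    (y : R) (L : ℕ) (hy : (y - 1) ^ L = 0) (hL : L + N' ≤ N + 1) (k : ℕ) (hk : k < N') :
    ∑ j ∈ range (D + 1), ∑ l ∈ range (d + 1),
        (c j l : R) * ((j + l * r).choose k : R) * y ^ (j + l * r) = 0 := by
  have hdv : (X - C 1) ^ N ∣ aux r D d c := by
    rw [X_sub_C_pow_dvd_iff, X_pow_dvd_iff]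
    intro q hq
    rw [← taylor_apply]
    have h := taylor_coeff_aux r D d c 1 q
    rw [one_pow, one_mul] at h
    rw [h]
    simp only [one_pow, mul_one]
    exact hc q hq
  obtain ⟨G, hG⟩ := hdv
  have h1 := taylor_coeff_aux r D d (fun j l => ((c j l : ℤ) : R)) y k
  rw [← h1]
  have h2 : aux r D d (fun j l => ((c j l : ℤ) : R))
      = (X - C 1) ^ N * G.map (Int.castRingHom R) := by
    have h3 := aux_map (Int.castRingHom R) r D d c
    have h4 : (fun j l => (Int.castRingHom R) (c j l)) = (fun j l => ((c j l : ℤ) : R)) := by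
      funext j l
      simp
    rw [h4] at h3
    rw [← h3, hG]
    simp
  rw [h2]
  have h5 : taylor y ((X - C (1 : R)) ^ N * G.map (Int.castRingHom R))
      = (X + C (y - 1)) ^ N * taylor y (G.map (Int.castRingHom R)) := by
    rw [taylor_mul, taylor_pow]
    congr 2
    rw [map_sub, taylor_X, taylor_C, C_sub]
    ring
  rw [h5, coeff_mul]
  have h6 : ∑ x ∈ antidiagonal k, ((X + C (y - 1)) ^ N).coeff x.1 *
      (taylor y (G.map (Int.castRingHom R))).coeff x.2 = 0 := by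
    refine Finset.sum_eq_zero ?_
    intro x hx
    have hx' : x.1 + x.2 = k := Finset.HasAntidiagonal.mem_antidiagonal.1 hx
    rw [coeff_X_add_C_pow]
    have h7 : (y - 1) ^ (N - x.1) = 0 := by
      have : N - x.1 = L + (N - x.1 - L) := by omega
      rw [this, pow_add, hy, zero_mul]
    rw [h7]
    ring
  rw [h6, mul_zero]

/-- Divisibility of the auxiliary integers. -/
theorem bigI_dvd2 (r D d N N' L M M0 : ℕ) (c : ℕ → ℕ → ℤ)
    (hc : ∀ k < N, ∑ j ∈ range (D + 1), ∑ l ∈ range (d + 1),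
        c j l * ((j + l * r).choose k : ℤ) = 0)
    (B1 B2 A1 A2 : ℤ) (hM : M ∣ M0 ^ L) (hL : L + N' ≤ N + 1) (hB : (M0 : ℤ) ∣ B1 - B2)
    (hrel : (M : ℤ) ∣ A1 * B1 ^ r - A2 * B2 ^ r)
    (hMB : IsCoprime (M : ℤ) B1) (hMA : IsCoprime (M : ℤ) A2) (s k : ℕ) (hk : k < N') :
    (M : ℤ) ∣ bigI r D d c B1 B2 A1 A2 s k := by
  rw [← ZMod.intCast_zmod_eq_zero_iff_dvd]
  have huB : IsUnit ((B1 : ℤ) : ZMod M) := by
    obtain ⟨u, v, huv⟩ := hMB
    have h1 : ((u * (M : ℤ) + v * B1 : ℤ) : ZMod M) = ((1 : ℤ) : ZMod M) := by rw [huv]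
    push_cast at h1
    rw [ZMod.natCast_self, mul_zero, zero_add] at h1
    exact IsUnit.of_mul_eq_one_right _ h1
  have huA : IsUnit ((A2 : ℤ) : ZMod M) := by
    obtain ⟨u, v, huv⟩ := hMA
    have h1 : ((u * (M : ℤ) + v * A2 : ℤ) : ZMod M) = ((1 : ℤ) : ZMod M) := by rw [huv]
    push_cast at h1
    rw [ZMod.natCast_self, mul_zero, zero_add] at h1
    exact IsUnit.of_mul_eq_one_right _ h1
  obtain ⟨b, hb⟩ := huB.dvd (a := ((B2 : ℤ) : ZMod M))
  obtain ⟨a, ha⟩ := huA.dvd (a := ((A1 : ℤ) : ZMod M))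
  have hab : a = b ^ r := by
    have h1 : (((A1 * B1 ^ r - A2 * B2 ^ r : ℤ)) : ZMod M) = 0 :=
      (ZMod.intCast_zmod_eq_zero_iff_dvd _ _).2 hrel
    push_cast at h1
    rw [ha, hb, mul_pow] at h1
    have h2 : ((A2 : ℤ) : ZMod M) * ((B1 : ℤ) : ZMod M) ^ r * (a - b ^ r) = 0 := by
      linear_combination h1
    have hu : IsUnit (((A2 : ℤ) : ZMod M) * ((B1 : ℤ) : ZMod M) ^ r) := huA.mul (huB.pow r)
    have h3 := (hu.mul_right_eq_zero).1 h2
    exact sub_eq_zero.1 h3
  have hb1 : (b ^ s - 1) ^ L = 0 := by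
    obtain ⟨q, hq⟩ := hB
    have h1 : ((B1 : ℤ) : ZMod M) * (b - 1) = -((M0 : ZMod M) * ((q : ℤ) : ZMod M)) := by
      have h2 : (((B1 - B2 : ℤ)) : ZMod M) = (((M0 : ℤ) * q : ℤ) : ZMod M) := by rw [hq]
      push_cast at h2
      rw [hb] at h2
      linear_combination -h2
    have h3 : ((M0 : ZMod M)) ^ L = 0 := by
      have h4 : ((M0 ^ L : ℕ) : ZMod M) = 0 := (ZMod.natCast_eq_zero_iff _ _).2 hM
      push_cast at h4
      exact h4
    have h5 : (b - 1) ∣ (b ^ s - 1) := by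
      have := sub_dvd_pow_sub_pow b 1 s
      rwa [one_pow] at this
    obtain ⟨w, hw⟩ := h5
    have h6 : ((B1 : ℤ) : ZMod M) ^ L * (b - 1) ^ L = 0 := by
      rw [← mul_pow, h1, neg_pow, mul_pow, h3]
      ring
    have h7 := ((huB.pow L).mul_right_eq_zero).1 h6
    rw [hw, mul_pow, h7, zero_mul]
  have hv := vanish2 r D d N N' c hc (b ^ s) L hb1 hL k hk
  have hI : ((bigI r D d c B1 B2 A1 A2 s k : ℤ) : ZMod M)
      = ((B1 : ℤ) : ZMod M) ^ (s * D) * ((A2 : ℤ) : ZMod M) ^ (s * d) *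
        ∑ j ∈ range (D + 1), ∑ l ∈ range (d + 1),
          ((c j l : ℤ) : ZMod M) * ((j + l * r).choose k : ZMod M) * (b ^ s) ^ (j + l * r) := by
    unfold bigI
    push_cast
    rw [Finset.mul_sum]
    refine Finset.sum_congr rfl ?_
    intro j hj
    rw [Finset.mul_sum]
    refine Finset.sum_congr rfl ?_
    intro l hl
    rw [Finset.mem_range] at hj hl
    rw [hb, ha, hab]
    have e1 : s * D = s * j + s * (D - j) := by
      rw [← Nat.mul_add]; congr 1; omega
    have e2 : s * d = s * l + s * (d - l) := by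
      rw [← Nat.mul_add]; congr 1; omega
    rw [e1, e2, pow_add, pow_add, mul_pow, mul_pow]
    rw [show (b ^ s) ^ (j + l * r) = b ^ (s * j) * (b ^ r) ^ (s * l) from by
      rw [← pow_mul, ← pow_mul, ← pow_add]; congr 1; ring]
    ring
  rw [hI, hv, mul_zero]

/-- **The optimised transcendental core.** -/
theorem core2 (r D d N N' L T M M0 B1 B2 A1 A2 : ℕ)
    (hB1 : 0 < B1) (hB2 : 0 < B2) (hA1 : 0 < A1) (hA2 : 0 < A2) (hN : 0 < N)
    (hr : D < r) (hSieg : N * (T + 1) ≤ (D + 1) * (d + 1) * T)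
    (hM : M ∣ M0 ^ L) (hL : L + N' ≤ N + 1) (hB : (M0 : ℤ) ∣ (B1 : ℤ) - B2) (hne : B1 ≠ B2)
    (hrel : (M : ℤ) ∣ (A1 : ℤ) * B1 ^ r - A2 * B2 ^ r)
    (hMB : Nat.Coprime M B1) (hMA : Nat.Coprime M A2)
    (hsize : ((D + 1) * (d + 1) * 2 ^ (D + d * r)) ^ (T + 1) * (max B1 B2) ^ D *
      (max A1 A2) ^ d < M)
    (hzero : (d + 1) * D < (N - d) + (N' - d)) : False := by
  obtain ⟨c, hc0, hcK, hc⟩ := siegel2 r D d N T hN hSieg
  have hI0 : ∀ k < N', bigI r D d c B1 B2 A1 A2 1 k = 0 := by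
    intro k hk
    refine Int.eq_zero_of_abs_lt_dvd (bigI_dvd2 r D d N N' L M M0 c hc B1 B2 A1 A2 hM hL hB hrel
      (Nat.isCoprime_iff_coprime.2 hMB) (Nat.isCoprime_iff_coprime.2 hMA) 1 k hk) ?_
    refine lt_of_le_of_lt (bigI_abs_le r D d 1 c _ hcK B1 B2 A1 A2 hB1 hA1 1 k le_rfl) ?_
    have h1 : (D + 1) * (d + 1) * (((D + 1) * (d + 1) * 2 ^ (D + d * r)) ^ T *
        2 ^ (D + d * r)) * (max B1 B2) ^ (1 * D) * (max A1 A2) ^ (1 * d)
        = ((D + 1) * (d + 1) * 2 ^ (D + d * r)) ^ (T + 1) * (max B1 B2) ^ D *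
      (max A1 A2) ^ d := by
      rw [one_mul, one_mul, pow_succ]
      ring
    rw [h1]
    exact_mod_cast hsize
  set β : ℚ := (B2 : ℚ) / B1 with hβ
  set α : ℚ := (A1 : ℚ) / A2 with hα
  have hB1q : (B1 : ℚ) ≠ 0 := by exact_mod_cast hB1.ne'
  have hB2q : (B2 : ℚ) ≠ 0 := by exact_mod_cast hB2.ne'
  have hA1q : (A1 : ℚ) ≠ 0 := by exact_mod_cast hA1.ne'
  have hA2q : (A2 : ℚ) ≠ 0 := by exact_mod_cast hA2.ne'
  have hβ0 : 0 < β := by
    rw [hβ]
    positivity
  have hβ1 : β ≠ 1 := by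
    rw [hβ]
    intro h
    rw [div_eq_one_iff_eq hB1q] at h
    exact hne (by exact_mod_cast h.symm)
  have hα0 : 0 < α := by
    rw [hα]
    positivity
  have hz := zeroEst2 r D d 2 ![N, N'] hr (fun j l => ((c j l : ℤ) : ℚ)) (by
      obtain ⟨j, hj, l, hl, hjl⟩ := hc0
      exact ⟨j, hj, l, hl, by exact_mod_cast hjl⟩)
    (fun s : Fin 2 => β ^ (s : ℕ)) (fun s : Fin 2 => α ^ (s : ℕ))
    (by
      intro s t hst
      have h1 : β ^ (s : ℕ) = β ^ (t : ℕ) := hst
      have h2 := pow_right_injective₀ hβ0 hβ1 h1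
      exact Fin.ext (by omega))
    (fun s => (pow_pos hβ0 _).ne') (fun s => (pow_pos hα0 _).ne')
    (by
      intro s
      fin_cases s
      · intro k hk
        have hk' : k < N := hk
        have h1 := hc k hk'
        have h2 : ((∑ j ∈ range (D + 1), ∑ l ∈ range (d + 1),
          c j l * ((j + l * r).choose k : ℤ) : ℤ) : ℚ) = 0 := by rw [h1]; simp
        push_cast at h2
        simpa using h2
      · intro k hk
        have hk' : k < N' := hk
        have h1 := hI0 k hk'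
        have h2 : ((bigI r D d c B1 B2 A1 A2 1 k : ℤ) : ℚ) = 0 := by rw [h1]; simp
        have h3 : ((bigI r D d c B1 B2 A1 A2 1 k : ℤ) : ℚ)
            = (B1 : ℚ) ^ D * (A2 : ℚ) ^ d *
              ∑ j ∈ range (D + 1), ∑ l ∈ range (d + 1),
                ((c j l : ℤ) : ℚ) * ((j + l * r).choose k : ℚ) * β ^ j * α ^ l := by
          unfold bigI
          push_cast
          rw [Finset.mul_sum]
          refine Finset.sum_congr rfl ?_
          intro j hj
          rw [Finset.mul_sum]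
          refine Finset.sum_congr rfl ?_
          intro l hl
          rw [Finset.mem_range] at hj hl
          have e1 : D = j + (D - j) := by omega
          have e2 : d = l + (d - l) := by omega
          rw [one_mul, one_mul, one_mul, one_mul]
          have e5 : (B1 : ℚ) ^ D = (B1 : ℚ) ^ j * (B1 : ℚ) ^ (D - j) := by
            rw [← pow_add, ← e1]
          have e6 : (A2 : ℚ) ^ d = (A2 : ℚ) ^ l * (A2 : ℚ) ^ (d - l) := by
            rw [← pow_add, ← e2]
          have e3 : (B2 : ℚ) ^ j = (B1 : ℚ) ^ j * β ^ j := by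
            rw [← mul_pow, hβ, mul_div_cancel₀ _ hB1q]
          have e4 : (A1 : ℚ) ^ l = (A2 : ℚ) ^ l * α ^ l := by
            rw [← mul_pow, hα, mul_div_cancel₀ _ hA2q]
          rw [e3, e4, e5, e6]
          ring
        rw [h3] at h2
        have h4 : (B1 : ℚ) ^ D * (A2 : ℚ) ^ d ≠ 0 :=
          mul_ne_zero (pow_ne_zero _ hB1q) (pow_ne_zero _ hA2q)
        have h5 := (mul_eq_zero.1 h2).resolve_left h4
        simpa using h5)
  rw [Fin.sum_univ_two] at hz
  simp only [Matrix.cons_val_zero, Matrix.cons_val_one] at hz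
  omega

end Pool.Agent.AbcF
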