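import Mathlib
import Pool.Agent.Lib.AbcF.Core2
import Pool.Agent.Lib.AbcE.TheoremE

/-!
# The optimised core with real parameters
-/

namespace Pool.Agent.AbcF

open Finset Pool.Agent.AbcE

/-- The optimised core with real parameters. -/
theorem coreReal (M r T : ℕ) (κ hB hA : ℝ) (hM : 0 < M) (hr0 : 0 < r)
    (hκ0 : 0 < κ) (hκ1 : κ ≤ 1 / 2) (hT : 4 / κ ≤ T + 1)
    (hB0 : 3 * (T + 1) / κ ≤ hB) (hA0 : 3 * (T + 1) * r / κ ≤ hA)
    (hr : Real.log M < 2 * hB * r) (hD : 16 * hB / κ ≤ Real.log M)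
    (hm : 12 * (T + 1) * Real.log (Real.log M + 1) ≤ κ * Real.log M) :
    ∃ M0 : ℕ, 0 < M0 ∧ (∀ q : ℕ, q.Coprime M → q.Coprime M0) ∧
      Real.log M0 ≤ Real.log ((∏ q ∈ M.primeFactors, q : ℕ) : ℝ) +
        4 * hB * hA / ((1 - κ) ^ 3 * Real.log M) ∧
      ∀ B1 B2 A1 A2 : ℕ, 0 < B1 → 0 < B2 → 0 < A1 → 0 < A2 → (M0 : ℤ) ∣ (B1 : ℤ) - B2 →
        (M : ℤ) ∣ (A1 : ℤ) * B1 ^ r - A2 * B2 ^ r → Nat.Coprime M B1 → Nat.Coprime M A2 →
        Real.log ((max B1 B2 : ℕ) : ℝ) ≤ hB → Real.log ((max A1 A2 : ℕ) : ℝ) ≤ hA → B1 = B2 := by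
  set m : ℝ := Real.log M with hmdef
  have hT0 : (0 : ℝ) ≤ T := Nat.cast_nonneg _
  have hrR : (1 : ℝ) ≤ r := by exact_mod_cast hr0
  have h4κ : (8 : ℝ) ≤ 4 / κ := by rw [le_div_iff₀ hκ0]; linarith
  have hT7 : (7 : ℝ) ≤ T := by linarith
  have hBpos : 0 < hB := lt_of_lt_of_le (by positivity) hB0
  have hApos : 0 < hA := lt_of_lt_of_le (by positivity) hA0
  have hB3 : 3 * ((T : ℝ) + 1) ≤ κ * hB := by rwa [div_le_iff₀' hκ0] at hB0
  have hA3 : 3 * ((T : ℝ) + 1) * r ≤ κ * hA := by rwa [div_le_iff₀' hκ0] at hA0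
  have hB1' : (1 : ℝ) ≤ hB := by
    have := mul_le_mul_of_nonneg_right hκ1 hBpos.le
    linarith only [this, hB3, hT7]
  have hA1' : (1 : ℝ) ≤ hA := by
    have h1 := mul_le_mul_of_nonneg_right hκ1 hApos.le
    have h2 : 3 * ((T : ℝ) + 1) * 1 ≤ 3 * ((T : ℝ) + 1) * r :=
      mul_le_mul_of_nonneg_left hrR (by positivity)
    linarith only [h1, h2, hA3, hT7]
  have hD16 : 16 * hB ≤ κ * m := by rwa [div_le_iff₀' hκ0] at hD
  have hmpos : 0 < m := by
    have : 0 < κ * m := by linarith only [hD16, hBpos]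
    exact (mul_pos_iff_of_pos_left hκ0).mp this
  -- `D` and `d`
  set D : ℕ := ⌊(1 - κ) * m / (2 * hB)⌋₊ with hDdef
  set d : ℕ := ⌊(1 - κ) * m / (2 * hA)⌋₊ with hddef
  have h1κ : 0 < 1 - κ := by linarith
  have hDle : (D : ℝ) ≤ (1 - κ) * m / (2 * hB) := Nat.floor_le (by positivity)
  have hdle : (d : ℝ) ≤ (1 - κ) * m / (2 * hA) := Nat.floor_le (by positivity)
  have hDlt : (1 - κ) * m / (2 * hB) < (D : ℝ) + 1 := Nat.lt_floor_add_one _
  have hdlt : (1 - κ) * m / (2 * hA) < (d : ℝ) + 1 := Nat.lt_floor_add_one _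
  have hD0 : (0 : ℝ) ≤ D := Nat.cast_nonneg _
  have hd0 : (0 : ℝ) ≤ d := Nat.cast_nonneg _
  have hDhB : (D : ℝ) * hB ≤ (1 - κ) * m / 2 := by
    rw [le_div_iff₀ (by positivity)] at hDle
    linarith
  have hdhA : (d : ℝ) * hA ≤ (1 - κ) * m / 2 := by
    rw [le_div_iff₀ (by positivity)] at hdle
    linarith
  -- `D + 1 ≥ 4 / κ`
  have hD1κ : 4 ≤ κ * ((D : ℝ) + 1) := by
    have h1 : (1 - κ) * m ≤ ((D : ℝ) + 1) * (2 * hB) := by
      rw [div_lt_iff₀ (by positivity)] at hDlt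
      exact hDlt.le
    have h2 : (1 / 2) * m ≤ ((D : ℝ) + 1) * (2 * hB) := by
      have := mul_le_mul_of_nonneg_right hκ1 hmpos.le
      linarith only [this, h1]
    -- 8 hB ≤ κ m / 2 ≤ κ (D+1) 2 hB
    have h3 : 8 * hB ≤ κ * (((D : ℝ) + 1) * (2 * hB)) := by
      have := mul_le_mul_of_nonneg_left h2 hκ0.le
      linarith only [this, hD16]
    have h4 : 4 * (2 * hB) ≤ (κ * ((D : ℝ) + 1)) * (2 * hB) := by linarith only [h3]
    exact le_of_mul_le_mul_right h4 (by positivity)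
  have hD8 : 8 ≤ D + 1 := by
    have h1 : κ * ((D : ℝ) + 1) ≤ 1 / 2 * ((D : ℝ) + 1) :=
      mul_le_mul_of_nonneg_right hκ1 (by positivity)
    have : (8 : ℝ) ≤ (D : ℝ) + 1 := by linarith only [h1, hD1κ]
    exact_mod_cast this
  have hκm : 0 < κ * m := mul_pos hκ0 hmpos
  have hDhB2 : (D : ℝ) * hB ≤ m / 2 := by linarith only [hDhB, hκm]
  have hdhA2 : (d : ℝ) * hA ≤ m / 2 := by linarith only [hdhA, hκm]
  have hDr : D < r := by
    have h1 : (D : ℝ) < r := by
      by_contra hcon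
      have hcon := not_lt.1 hcon
      have h2 : (r : ℝ) * hB ≤ (1 - κ) * m / 2 :=
        (mul_le_mul_of_nonneg_right hcon hBpos.le).trans hDhB
      have h3 := mul_pos hκ0 hmpos
      linarith only [h2, h3, hr]
    exact_mod_cast h1
  set n0 : ℕ := (D + 1) * (d + 1) with hn0
  have hn0R : (n0 : ℝ) = ((D : ℝ) + 1) * ((d : ℝ) + 1) := by rw [hn0]; push_cast; ring
  set N : ℕ := n0 * T / (T + 1) with hN
  set N' : ℕ := n0 / (T + 1) + 2 * d + 2 with hN'
  set L : ℕ := N + 1 - N' with hLdef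
  have hTn : 7 ≤ T := by exact_mod_cast hT7
  -- real bounds for `N`, `N'`
  have hNle : N * (T + 1) ≤ n0 * T := Nat.div_mul_le_self _ _
  have hNlt : n0 * T < (T + 1) * (N + 1) := Nat.lt_mul_div_succ _ (by omega)
  have hN'le : (n0 / (T + 1)) * (T + 1) ≤ n0 := Nat.div_mul_le_self _ _
  have hN'lt : n0 < (T + 1) * (n0 / (T + 1) + 1) := Nat.lt_mul_div_succ _ (by omega)
  set q : ℕ := n0 / (T + 1) with hq
  have hsum : n0 + 2 * d ≤ N + N' := by
    -- (T+1)(N+1) + (T+1)(q+1) > n0 (T+1)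
    have h1 : n0 * (T + 1) < (T + 1) * (N + 1 + (q + 1)) := by
      calc n0 * (T + 1) = n0 * T + n0 := by ring
        _ < (T + 1) * (N + 1) + (T + 1) * (q + 1) := by omega
        _ = (T + 1) * (N + 1 + (q + 1)) := by ring
    have h2 : n0 < N + 1 + (q + 1) := by
      have h3 : (T + 1) * n0 < (T + 1) * (N + 1 + (q + 1)) := by
        rw [mul_comm (T + 1) n0]; exact h1
      exact lt_of_mul_lt_mul_left h3 (Nat.zero_le _)
    omega
  -- lower bound for `L`
  have hLR : (1 - κ) * n0 ≤ (L : ℝ) := by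
    have h1 : (n0 : ℝ) * T ≤ ((T : ℝ) + 1) * ((N : ℝ) + 1) := by exact_mod_cast hNlt.le
    have h2 : (q : ℝ) * ((T : ℝ) + 1) ≤ n0 := by exact_mod_cast hN'le
    have h3 : (N : ℝ) + 1 - N' ≤ (L : ℝ) := by
      have : N + 1 ≤ L + N' := by omega
      have h4 : (N : ℝ) + 1 ≤ (L : ℝ) + N' := by exact_mod_cast this
      linarith
    refine le_trans ?_ h3
    have hN'R : (N' : ℝ) = q + 2 * d + 2 := by rw [hN']; push_cast; ring
    rw [hN'R]
    have hT1 : (0 : ℝ) < (T : ℝ) + 1 := by linarith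
    -- multiply by `T+1`
    have h5 : 4 ≤ κ * ((T : ℝ) + 1) := by rwa [div_le_iff₀' hκ0] at hT
    have hn0pos : 0 < (n0 : ℝ) := by rw [hn0R]; positivity
    have h6 : (2 : ℝ) * ((d : ℝ) + 1) ≤ κ / 2 * n0 := by
      rw [hn0R]
      have := mul_le_mul_of_nonneg_right hD1κ (show (0 : ℝ) ≤ (d : ℝ) + 1 by positivity)
      linarith only [this]
    have h7 : (1 - κ / 2) * n0 * ((T : ℝ) + 1) ≤ ((N : ℝ) + 1 - q) * ((T : ℝ) + 1) := by
      have h8 : (n0 : ℝ) * T - n0 ≤ ((N : ℝ) + 1 - q) * ((T : ℝ) + 1) := by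
        linarith only [h1, h2]
      have h9 : (1 - κ / 2) * n0 * ((T : ℝ) + 1) ≤ (n0 : ℝ) * T - n0 := by
        have := mul_le_mul_of_nonneg_right h5 hn0pos.le
        linarith only [this]
      linarith
    have h10 : (1 - κ / 2) * n0 ≤ (N : ℝ) + 1 - q := le_of_mul_le_mul_right h7 hT1
    linarith
  have hn0pos : 0 < (n0 : ℝ) := by rw [hn0R]; positivity
  have hLpos : 0 < L := by
    have : (0 : ℝ) < L := lt_of_lt_of_le (by positivity) hLR
    exact_mod_cast this
  obtain ⟨M0, hM0, hMM0, hM0le, hM0cop⟩ := exists_M0 M L hM hLpos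
  have hM0R : (0 : ℝ) < M0 := by exact_mod_cast hM0
  have hMR : (0 : ℝ) < M := by exact_mod_cast hM
  set R : ℝ := ((∏ q ∈ M.primeFactors, q : ℕ) : ℝ) with hR
  have hR1 : 1 ≤ R := by
    rw [hR]
    exact_mod_cast Nat.succ_le_of_lt
      (Finset.prod_pos fun q hq => (Nat.prime_of_mem_primeFactors hq).pos)
  have hn0ge : (1 - κ) ^ 2 * m ^ 2 ≤ 4 * hB * hA * n0 := by
    have h1 : (1 - κ) * m ≤ ((D : ℝ) + 1) * (2 * hB) := by
      rw [div_lt_iff₀ (by positivity)] at hDlt
      exact hDlt.le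
    have h2 : (1 - κ) * m ≤ ((d : ℝ) + 1) * (2 * hA) := by
      rw [div_lt_iff₀ (by positivity)] at hdlt
      exact hdlt.le
    have h3 : 0 ≤ (1 - κ) * m := by positivity
    calc (1 - κ) ^ 2 * m ^ 2 = ((1 - κ) * m) * ((1 - κ) * m) := by ring
      _ ≤ (((D : ℝ) + 1) * (2 * hB)) * (((d : ℝ) + 1) * (2 * hA)) :=
        mul_le_mul h1 h2 h3 (by positivity)
      _ = 4 * hB * hA * n0 := by rw [hn0R]; ring
  refine ⟨M0, hM0, hM0cop, ?_, ?_⟩
  · have h1 : ((M0 : ℝ)) ^ L ≤ M * R ^ L := by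
      rw [hR]
      exact_mod_cast hM0le
    have h2 := Real.log_le_log (by positivity) h1
    rw [Real.log_mul hMR.ne' (by positivity), Real.log_pow, Real.log_pow] at h2
    have hLR0 : (0 : ℝ) < L := by exact_mod_cast hLpos
    have h3 : Real.log M0 ≤ Real.log R + m / L := by
      have h4 : (L : ℝ) * Real.log M0 ≤ L * (Real.log R + m / L) := by
        rw [mul_add, mul_div_cancel₀ _ hLR0.ne']
        linarith
      exact le_of_mul_le_mul_left h4 hLR0
    refine h3.trans ?_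
    have h5 : m / L ≤ 4 * hB * hA / ((1 - κ) ^ 3 * m) := by
      rw [div_le_div_iff₀ hLR0 (by positivity)]
      have h6 : (1 - κ) ^ 3 * m ^ 2 ≤ 4 * hB * hA * ((1 - κ) * n0) := by
        calc (1 - κ) ^ 3 * m ^ 2 = (1 - κ) * ((1 - κ) ^ 2 * m ^ 2) := by ring
          _ ≤ (1 - κ) * (4 * hB * hA * n0) := mul_le_mul_of_nonneg_left hn0ge h1κ.le
          _ = _ := by ring
      have h7 : 4 * hB * hA * ((1 - κ) * n0) ≤ 4 * hB * hA * L :=
        mul_le_mul_of_nonneg_left hLR (by positivity)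
      linarith only [h6, h7]
    linarith
  · intro B1 B2 A1 A2 hB1 hB2 hA1 hA2 hMB hrel hcB hcA hlB hlA
    by_contra hne
    have hNpos : 0 < N := by
      have h1 : 2 * (T + 1) ≤ n0 * T := by
        have h3 : 8 ≤ n0 := by
          rw [hn0]
          calc 8 = 8 * 1 := by norm_num
            _ ≤ (D + 1) * (d + 1) := Nat.mul_le_mul hD8 (by omega)
        calc 2 * (T + 1) ≤ 8 * T := by omega
          _ ≤ n0 * T := Nat.mul_le_mul_right _ h3
      by_contra hcon
      have h4 : N = 0 := by omega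
      rw [h4] at hNlt
      omega
    refine core2 r D d N N' L T M M0 B1 B2 A1 A2 hB1 hB2 hA1 hA2 hNpos hDr hNle hMM0 (by omega)
      hMB hne hrel hcB hcA ?_ ?_
    · -- size
      have hmB : 0 < max B1 B2 := lt_max_of_lt_left hB1
      have hmA : 0 < max A1 A2 := lt_max_of_lt_left hA1
      have hmBR : (0 : ℝ) < ((max B1 B2 : ℕ) : ℝ) := by exact_mod_cast hmB
      have hmAR : (0 : ℝ) < ((max A1 A2 : ℕ) : ℝ) := by exact_mod_cast hmA
      have hgoal : ((n0 : ℝ) * (2 : ℝ) ^ (D + d * r)) ^ (T + 1) *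
          ((max B1 B2 : ℕ) : ℝ) ^ D * ((max A1 A2 : ℕ) : ℝ) ^ d < (M : ℝ) := by
        rw [← Real.log_lt_log_iff (by positivity) hMR]
        rw [Real.log_mul (by positivity) (by positivity),
          Real.log_mul (by positivity) (by positivity), Real.log_pow, Real.log_pow, Real.log_pow,
          Real.log_mul (by positivity) (by positivity), Real.log_pow]
        push_cast
        have hcB : (max (B1 : ℝ) (B2 : ℝ)) = ((max B1 B2 : ℕ) : ℝ) := by push_cast; rfl
        have hcA : (max (A1 : ℝ) (A2 : ℝ)) = ((max A1 A2 : ℕ) : ℝ) := by push_cast; rfl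
        rw [hcB, hcA]
        have t1 : (D : ℝ) * Real.log ((max B1 B2 : ℕ) : ℝ) ≤ (1 - κ) * m / 2 :=
          (mul_le_mul_of_nonneg_left hlB hD0).trans hDhB
        have t2 : (d : ℝ) * Real.log ((max A1 A2 : ℕ) : ℝ) ≤ (1 - κ) * m / 2 :=
          (mul_le_mul_of_nonneg_left hlA hd0).trans hdhA
        have hT1 : (0 : ℝ) < (T : ℝ) + 1 := by linarith
        -- `(T+1) D ≤ κ m / 6`
        have t3 : ((T : ℝ) + 1) * D ≤ κ * m / 6 := by
          have h1 : 3 * (((T : ℝ) + 1) * D) ≤ κ * (D * hB) := by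
            have := mul_le_mul_of_nonneg_right hB3 hD0
            linarith only [this]
          have h2 := mul_le_mul_of_nonneg_left hDhB2 hκ0.le
          linarith only [h1, h2]
        have t4 : ((T : ℝ) + 1) * (d * r) ≤ κ * m / 6 := by
          have h1 : 3 * (((T : ℝ) + 1) * (d * r)) ≤ κ * (d * hA) := by
            have := mul_le_mul_of_nonneg_right hA3 hd0
            linarith only [this]
          have h2 := mul_le_mul_of_nonneg_left hdhA2 hκ0.le
          linarith only [h1, h2]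
        have t5 : ((T : ℝ) + 1) * Real.log n0 ≤ κ * m / 6 := by
          have h1 : (n0 : ℝ) ≤ (m + 1) ^ 2 := by
            rw [hn0R, pow_two]
            have h2 : (D : ℝ) ≤ m := by
              have := mul_le_mul_of_nonneg_left hB1' hD0
              linarith only [this, hDhB2, hmpos]
            have h3 : (d : ℝ) ≤ m := by
              have := mul_le_mul_of_nonneg_left hA1' hd0
              linarith only [this, hdhA2, hmpos]
            exact mul_le_mul (by linarith) (by linarith) (by positivity) (by positivity)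
          have h4 : Real.log n0 ≤ 2 * Real.log (m + 1) := by
            have h5 := Real.log_le_log hn0pos h1
            rw [Real.log_pow] at h5
            exact_mod_cast h5
          have h6 := mul_le_mul_of_nonneg_left h4 hT1.le
          linarith only [h6, hm]
        have hlog2 : Real.log 2 ≤ 1 := by
          have := Real.log_two_lt_d9
          linarith
        have t6 : ((T : ℝ) + 1) * (((D : ℝ) + d * r) * Real.log 2) ≤ κ * m / 3 := by
          have h1 : ((D : ℝ) + d * r) * Real.log 2 ≤ (D : ℝ) + d * r := by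
            have h2 : (0 : ℝ) ≤ (D : ℝ) + d * r := by positivity
            have := mul_le_mul_of_nonneg_left hlog2 h2
            linarith only [this]
          have h3 : ((T : ℝ) + 1) * (((D : ℝ) + d * r) * Real.log 2)
              ≤ ((T : ℝ) + 1) * ((D : ℝ) + d * r) := mul_le_mul_of_nonneg_left h1 hT1.le
          linarith only [h3, t3, t4]
        have t7 : ((T : ℝ) + 1) * (Real.log n0 + ((D : ℝ) + d * r) * Real.log 2)
            ≤ κ * m / 2 := by
          rw [mul_add]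
          linarith
        have t8 : 0 < κ * m := by positivity
        linarith
      exact_mod_cast hgoal
    · -- zero estimate
      have h1 : (d + 1) * D + (d + 1) = n0 := by rw [hn0]; ring
      have h2 : d ≤ N := by
        have h4 : 8 * (d + 1) ≤ n0 := by rw [hn0]; exact Nat.mul_le_mul_right _ hD8
        have h5 : (T + 1) * (d + 1) ≤ n0 * T := by
          calc (T + 1) * (d + 1) ≤ (8 * T) * (d + 1) := Nat.mul_le_mul_right _ (by omega)
            _ = 8 * (d + 1) * T := by ring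
            _ ≤ n0 * T := Nat.mul_le_mul_right _ h4
        have h6 : (T + 1) * (d + 1) < (T + 1) * (N + 1) := by omega
        have h7 := lt_of_mul_lt_mul_left h6 (Nat.zero_le _)
        omega
      omega

end Pool.Agent.AbcF
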