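import Mathlib
import Pool.Agent.Lib.Pabc1.SCount

open Finset Filter Topology

namespace Pool.Agent.AbcF

open Pool.Agent.Lib.Pabc2 Pool.Agent.Lib.Pabc1

/-- The primes of the member with label `j`. -/
def FP (t : ℕ × ℕ) (j : Fin 3) : Finset ℕ := (N t).primeFactors.filter (fun p => lab t p = j)

/-- The radical of the member with label `j`. -/
def Pr (t : ℕ × ℕ) (j : Fin 3) : ℕ := ∏ p ∈ FP t j, p

/-- The excess of the exponents over `r`. -/
def Up (r : ℕ) (t : ℕ × ℕ) (j : Fin 3) : ℕ := ∏ p ∈ FP t j, p ^ (ex t p - r)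

/-- The defect of the exponents below `r`. -/
def Dn (r : ℕ) (t : ℕ × ℕ) (j : Fin 3) : ℕ := ∏ p ∈ FP t j, p ^ (r - ex t p)

/-- The total deviation of the exponents from `r`. -/
noncomputable def dev (r : ℕ) (t : ℕ × ℕ) (j : Fin 3) : ℝ :=
  ∑ p ∈ FP t j, |(ex t p : ℝ) - r| * Real.log p

theorem FP_prime {t : ℕ × ℕ} {j : Fin 3} {p : ℕ} (hp : p ∈ FP t j) : p.Prime :=
  Nat.prime_of_mem_primeFactors (Finset.mem_filter.mp hp).1

theorem comp_mul_Dn {t : ℕ × ℕ} (h : IsT t) (r : ℕ) (j : Fin 3) :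
    comp t j * Dn r t j = Pr t j ^ r * Up r t j := by
  rw [comp_eq h j]
  unfold Dn Pr Up FP
  rw [← Finset.prod_pow, ← Finset.prod_mul_distrib, ← Finset.prod_mul_distrib]
  apply Finset.prod_congr rfl
  intro p _
  rw [← pow_add, ← pow_add]
  congr 1
  omega

theorem FP_coprime {t : ℕ × ℕ} (h : IsT t) {j l : Fin 3} (hjl : j ≠ l) {M : ℕ}
    (hM : M ∣ comp t l) {p : ℕ} (hp : p ∈ FP t j) : p.Coprime M := by
  have hpp := FP_prime hp
  rw [Nat.Prime.coprime_iff_not_dvd hpp]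
  intro hd
  have h1 := lab_of_dvd h hpp (hd.trans hM)
  exact hjl ((Finset.mem_filter.mp hp).2.symm.trans h1)

theorem Pr_pos (t : ℕ × ℕ) (j : Fin 3) : 0 < Pr t j :=
  Finset.prod_pos (fun _ hp => (FP_prime hp).pos)

theorem Up_pos (r : ℕ) (t : ℕ × ℕ) (j : Fin 3) : 0 < Up r t j :=
  Finset.prod_pos (fun _ hp => pow_pos (FP_prime hp).pos _)

theorem Dn_pos (r : ℕ) (t : ℕ × ℕ) (j : Fin 3) : 0 < Dn r t j :=
  Finset.prod_pos (fun _ hp => pow_pos (FP_prime hp).pos _)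

theorem Pr_coprime {t : ℕ × ℕ} (h : IsT t) {j l : Fin 3} (hjl : j ≠ l) {M : ℕ}
    (hM : M ∣ comp t l) : (Pr t j).Coprime M :=
  Nat.Coprime.prod_left (fun _ hp => FP_coprime h hjl hM hp)

theorem Up_coprime {t : ℕ × ℕ} (h : IsT t) {j l : Fin 3} (hjl : j ≠ l) {M : ℕ}
    (hM : M ∣ comp t l) (r : ℕ) : (Up r t j).Coprime M :=
  Nat.Coprime.prod_left (fun _ hp => Nat.Coprime.pow_left _ (FP_coprime h hjl hM hp))

theorem Dn_coprime {t : ℕ × ℕ} (h : IsT t) {j l : Fin 3} (hjl : j ≠ l) {M : ℕ}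
    (hM : M ∣ comp t l) (r : ℕ) : (Dn r t j).Coprime M :=
  Nat.Coprime.prod_left (fun _ hp => Nat.Coprime.pow_left _ (FP_coprime h hjl hM hp))

theorem log_Up_le (r : ℕ) (t : ℕ × ℕ) (j : Fin 3) : Real.log (Up r t j) ≤ dev r t j := by
  unfold Up dev
  push_cast
  rw [Real.log_prod (fun p hp => by
    have : (0 : ℝ) < p := by exact_mod_cast (FP_prime hp).pos
    positivity)]
  apply Finset.sum_le_sum
  intro p hp
  rw [Real.log_pow]
  apply mul_le_mul_of_nonneg_right _ (Real.log_natCast_nonneg p)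
  rcases le_total r (ex t p) with h | h
  · rw [Nat.cast_sub h]
    exact le_abs_self _
  · rw [Nat.sub_eq_zero_of_le h]
    simp

theorem log_Dn_le (r : ℕ) (t : ℕ × ℕ) (j : Fin 3) : Real.log (Dn r t j) ≤ dev r t j := by
  unfold Dn dev
  push_cast
  rw [Real.log_prod (fun p hp => by
    have : (0 : ℝ) < p := by exact_mod_cast (FP_prime hp).pos
    positivity)]
  apply Finset.sum_le_sum
  intro p hp
  rw [Real.log_pow]
  apply mul_le_mul_of_nonneg_right _ (Real.log_natCast_nonneg p)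
  rcases le_total r (ex t p) with h | h
  · rw [Nat.sub_eq_zero_of_le h]
    simp
  · rw [Nat.cast_sub h, abs_sub_comm]
    exact le_abs_self _

theorem FP_disjoint (t : ℕ × ℕ) {i j : Fin 3} (hij : i ≠ j) : Disjoint (FP t i) (FP t j) := by
  rw [Finset.disjoint_left]
  intro p hp hq
  exact hij ((Finset.mem_filter.mp hp).2.symm.trans (Finset.mem_filter.mp hq).2)

theorem Pr_primeFactors (t : ℕ × ℕ) (j : Fin 3) : (Pr t j).primeFactors = FP t j :=
  Nat.primeFactors_prod (fun _ hp => FP_prime hp)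

/-- Equality of the ratios of the radicals forces equality of the sets of primes. -/
theorem FP_eq_of_ratio {s t : ℕ × ℕ} {l1 l2 : Fin 3} (h12 : l1 ≠ l2)
    (h : Pr s l1 * Pr t l2 = Pr t l1 * Pr s l2) : FP s l1 = FP t l1 ∧ FP s l2 = FP t l2 := by
  have key : ∀ a b : ℕ × ℕ, ∀ i j : Fin 3, i ≠ j → Pr a i * Pr b j = Pr b i * Pr a j →
      FP a i ⊆ FP b i := by
    intro a b i j hij e p hp
    have hpp := FP_prime hp
    have h1 : p ∣ Pr b i * Pr a j := by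
      rw [← e]
      exact Dvd.dvd.mul_right (Finset.dvd_prod_of_mem (fun p => p) hp) _
    rcases hpp.dvd_mul.mp h1 with h2 | h2
    · rw [← Pr_primeFactors]
      exact Nat.mem_primeFactors.mpr ⟨hpp, h2, (Pr_pos b i).ne'⟩
    · exfalso
      have h3 : p ∈ FP a j := by
        rw [← Pr_primeFactors]
        exact Nat.mem_primeFactors.mpr ⟨hpp, h2, (Pr_pos a j).ne'⟩
      exact (Finset.disjoint_left.mp (FP_disjoint a hij)) hp h3
  refine ⟨Finset.Subset.antisymm (key s t l1 l2 h12 h) (key t s l1 l2 h12 h.symm), ?_⟩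
  have h' : Pr s l2 * Pr t l1 = Pr t l2 * Pr s l1 := by linarith
  exact Finset.Subset.antisymm (key s t l2 l1 h12.symm h') (key t s l2 l1 h12.symm h'.symm)

/-- Two triples with a common modulus, nearly proportional exponents and congruent ratios of
radicals have the same radicals of the other two members. -/
theorem near_pair {M r M0 : ℕ} {hB hA : ℝ} {s t : ℕ × ℕ} (hs : IsT s) (ht' : IsT t)
    {l1 l2 l : Fin 3} (h12 : l1 ≠ l2) (h1 : l1 ≠ l) (h2 : l2 ≠ l)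
    (hMs : M ∣ comp s l) (hMt : M ∣ comp t l)
    (hcore : ∀ B1 B2 A1 A2 : ℕ, 0 < B1 → 0 < B2 → 0 < A1 → 0 < A2 → (M0 : ℤ) ∣ (B1 : ℤ) - B2 →
        (M : ℤ) ∣ (A1 : ℤ) * B1 ^ r - A2 * B2 ^ r → Nat.Coprime M B1 → Nat.Coprime M A2 →
        Real.log ((max B1 B2 : ℕ) : ℝ) ≤ hB → Real.log ((max A1 A2 : ℕ) : ℝ) ≤ hA → B1 = B2)
    (hres : (M0 : ℤ) ∣ ((Pr s l1 * Pr t l2 : ℕ) : ℤ) - ((Pr t l1 * Pr s l2 : ℕ) : ℤ))
    (hB1 : Real.log ((Pr s l1 * Pr t l2 : ℕ) : ℝ) ≤ hB)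
    (hB2 : Real.log ((Pr t l1 * Pr s l2 : ℕ) : ℝ) ≤ hB)
    (hA' : dev r s l1 + dev r s l2 + (dev r t l1 + dev r t l2) ≤ hA) :
    FP s l1 = FP t l1 ∧ FP s l2 = FP t l2 := by
  apply FP_eq_of_ratio h12
  have pU := fun (a : ℕ × ℕ) (j : Fin 3) => Up_pos r a j
  have pD := fun (a : ℕ × ℕ) (j : Fin 3) => Dn_pos r a j
  have pP := fun (a : ℕ × ℕ) (j : Fin 3) => Pr_pos a j
  have hU : ∀ (a : ℕ × ℕ) (j : Fin 3), (0 : ℝ) < Up r a j := fun a j => by
    exact_mod_cast pU a j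
  have hDn : ∀ (a : ℕ × ℕ) (j : Fin 3), (0 : ℝ) < Dn r a j := fun a j => by
    exact_mod_cast pD a j
  apply hcore (Pr s l1 * Pr t l2) (Pr t l1 * Pr s l2)
    (Up r s l1 * Up r t l2 * (Dn r t l1 * Dn r s l2))
    (Up r t l1 * Up r s l2 * (Dn r s l1 * Dn r t l2))
    (Nat.mul_pos (pP _ _) (pP _ _)) (Nat.mul_pos (pP _ _) (pP _ _))
    (Nat.mul_pos (Nat.mul_pos (pU _ _) (pU _ _)) (Nat.mul_pos (pD _ _) (pD _ _)))
    (Nat.mul_pos (Nat.mul_pos (pU _ _) (pU _ _)) (Nat.mul_pos (pD _ _) (pD _ _)))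
    hres
  · -- the divisibility
    have e1 : ((Up r s l1 * Up r t l2 * (Dn r t l1 * Dn r s l2) : ℕ) : ℤ) *
        ((Pr s l1 * Pr t l2 : ℕ) : ℤ) ^ r =
        (comp s l1 * comp t l2 : ℤ) * (Dn r s l1 * Dn r t l2 * Dn r t l1 * Dn r s l2) := by
      have a1 : (comp s l1 : ℤ) * Dn r s l1 = (Pr s l1 : ℤ) ^ r * Up r s l1 := by
        exact_mod_cast comp_mul_Dn hs r l1
      have a2 : (comp t l2 : ℤ) * Dn r t l2 = (Pr t l2 : ℤ) ^ r * Up r t l2 := by
        exact_mod_cast comp_mul_Dn ht' r l2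
      push_cast
      calc (Up r s l1 : ℤ) * Up r t l2 * (Dn r t l1 * Dn r s l2) * (Pr s l1 * Pr t l2) ^ r =
          ((Pr s l1 : ℤ) ^ r * Up r s l1) * ((Pr t l2 : ℤ) ^ r * Up r t l2) *
            (Dn r t l1 * Dn r s l2) := by rw [mul_pow]; ring
        _ = _ := by rw [← a1, ← a2]; ring
    have e2 : ((Up r t l1 * Up r s l2 * (Dn r s l1 * Dn r t l2) : ℕ) : ℤ) *
        ((Pr t l1 * Pr s l2 : ℕ) : ℤ) ^ r =
        (comp t l1 * comp s l2 : ℤ) * (Dn r s l1 * Dn r t l2 * Dn r t l1 * Dn r s l2) := by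
      have a1 : (comp t l1 : ℤ) * Dn r t l1 = (Pr t l1 : ℤ) ^ r * Up r t l1 := by
        exact_mod_cast comp_mul_Dn ht' r l1
      have a2 : (comp s l2 : ℤ) * Dn r s l2 = (Pr s l2 : ℤ) ^ r * Up r s l2 := by
        exact_mod_cast comp_mul_Dn hs r l2
      push_cast
      calc (Up r t l1 : ℤ) * Up r s l2 * (Dn r s l1 * Dn r t l2) * (Pr t l1 * Pr s l2) ^ r =
          ((Pr t l1 : ℤ) ^ r * Up r t l1) * ((Pr s l2 : ℤ) ^ r * Up r s l2) *
            (Dn r s l1 * Dn r t l2) := by rw [mul_pow]; ring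
        _ = _ := by rw [← a1, ← a2]; ring
    rw [e1, e2, ← sub_mul]
    apply Dvd.dvd.mul_right
    have b1 : (M : ℤ) ∣ (comp s l1 : ℤ) - sg3 l * comp s l2 :=
      (Int.natCast_dvd_natCast.mpr hMs).trans (comp_rel3 h12 h1 h2)
    have b2 : (M : ℤ) ∣ (comp t l1 : ℤ) - sg3 l * comp t l2 :=
      (Int.natCast_dvd_natCast.mpr hMt).trans (comp_rel3 h12 h1 h2)
    have e : (comp s l1 * comp t l2 - comp t l1 * comp s l2 : ℤ) =
        ((comp s l1 : ℤ) - sg3 l * comp s l2) * comp t l2 -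
          ((comp t l1 : ℤ) - sg3 l * comp t l2) * comp s l2 := by ring
    rw [e]
    exact dvd_sub (Dvd.dvd.mul_right b1 _) (Dvd.dvd.mul_right b2 _)
  · exact (Nat.Coprime.mul_left (Pr_coprime hs h1 hMs) (Pr_coprime ht' h2 hMt)).symm
  · exact (Nat.Coprime.mul_left
      (Nat.Coprime.mul_left (Up_coprime ht' h1 hMt r) (Up_coprime hs h2 hMs r))
      (Nat.Coprime.mul_left (Dn_coprime hs h1 hMs r) (Dn_coprime ht' h2 hMt r))).symm
  · rcases max_choice (Pr s l1 * Pr t l2) (Pr t l1 * Pr s l2) with h | h <;> rw [h]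
    · exact hB1
    · exact hB2
  · have g1 : ∀ a b c e : ℕ, 0 < a → 0 < b → 0 < c → 0 < e →
        Real.log ((a * b * (c * e) : ℕ) : ℝ) = Real.log a + Real.log b + Real.log c +
          Real.log e := by
      intro a b c e ha hb hc he
      have ha' : (a : ℝ) ≠ 0 := by exact_mod_cast ha.ne'
      have hb' : (b : ℝ) ≠ 0 := by exact_mod_cast hb.ne'
      have hc' : (c : ℝ) ≠ 0 := by exact_mod_cast hc.ne'
      have he' : (e : ℝ) ≠ 0 := by exact_mod_cast he.ne'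
      push_cast
      rw [Real.log_mul (mul_ne_zero ha' hb') (mul_ne_zero hc' he'), Real.log_mul ha' hb',
        Real.log_mul hc' he']
      ring
    rcases max_choice (Up r s l1 * Up r t l2 * (Dn r t l1 * Dn r s l2))
      (Up r t l1 * Up r s l2 * (Dn r s l1 * Dn r t l2)) with h | h <;> rw [h]
    · rw [g1 _ _ _ _ (pU _ _) (pU _ _) (pD _ _) (pD _ _)]
      linarith [log_Up_le r s l1, log_Up_le r t l2, log_Dn_le r t l1, log_Dn_le r s l2]
    · rw [g1 _ _ _ _ (pU _ _) (pU _ _) (pD _ _) (pD _ _)]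
      linarith [log_Up_le r t l1, log_Up_le r s l2, log_Dn_le r s l1, log_Dn_le r t l2]

end Pool.Agent.AbcF
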