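import Mathlib
import Pool.Agent.Lib.AbcF.CoreReal
import Pool.Agent.Lib.AbcF.NearPair

open Finset Filter Topology

namespace Pool.Agent.AbcF

open Pool.Agent.Lib.Pabc2 Pool.Agent.Lib.Pabc1

/-- Triples with a known part `S` of the member `l`, and nearly proportional exponents in the
two other members. -/
structure NearD (d x τ : ℝ) (S : Finset ℕ) (l : Fin 3) (t : ℕ × ℕ) : Prop where
  h : IsT t
  sub : S ⊆ (N t).primeFactors
  labS : ∀ p ∈ S, lab t p = l
  mass : d ≤ ∑ p ∈ S, u t p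
  near : ∑ p ∈ (N t).primeFactors.filter (fun p => lab t p ≠ l),
    |u t p - 3 * (Real.log p / x)| ≤ τ

theorem Pr_mul_le_rd {t : ℕ × ℕ} {i j : Fin 3} (hij : i ≠ j) : Pr t i * Pr t j ≤ rd t := by
  unfold Pr rd
  rw [← Finset.prod_union (FP_disjoint t hij)]
  apply Finset.prod_le_prod_of_subset_of_one_le'
  · intro p hp
    rcases Finset.mem_union.mp hp with h | h <;> exact (Finset.mem_filter.mp h).1
  · intro p hp _
    exact (Nat.prime_of_mem_primeFactors hp).one_lt.le

theorem Pr_le_rd (t : ℕ × ℕ) (i : Fin 3) : Pr t i ≤ rd t := by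
  unfold Pr rd
  apply Finset.prod_le_prod_of_subset_of_one_le' (Finset.filter_subset _ _)
  intro p hp _
  exact (Nat.prime_of_mem_primeFactors hp).one_lt.le

/-- The deviation of the exponents. -/
theorem dev_le {d x τ : ℝ} (hx : 0 < x) {S : Finset ℕ} {l l1 l2 : Fin 3} (h12 : l1 ≠ l2)
    (h1 : l1 ≠ l) (h2 : l2 ≠ l) {t : ℕ × ℕ} (h : NearD d x τ S l t)
    (hrd : Real.log (rd t) ≤ x) (r : ℕ) (w : ℝ) (hw : |3 * ht t / x - r| ≤ w) :
    dev r t l1 + dev r t l2 ≤ τ * ht t + w * x := by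
  have H := ht_pos h.h
  have hun : dev r t l1 + dev r t l2 =
      ∑ p ∈ (N t).primeFactors.filter (fun p => lab t p ≠ l), |(ex t p : ℝ) - r| * Real.log p := by
    unfold dev
    rw [← Finset.sum_union (FP_disjoint t h12)]
    apply Finset.sum_congr _ (fun _ _ => rfl)
    ext p
    unfold FP
    rw [Finset.mem_union, Finset.mem_filter, Finset.mem_filter, Finset.mem_filter]
    constructor
    · rintro (⟨a, b⟩ | ⟨a, b⟩)
      · exact ⟨a, by rw [b]; exact h1⟩
      · exact ⟨a, by rw [b]; exact h2⟩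
    · rintro ⟨a, b⟩
      rcases third_cases l1 l2 l h12 h1 h2 (lab t p) with c | c | c
      · exact Or.inl ⟨a, c⟩
      · exact Or.inr ⟨a, c⟩
      · exact absurd c b
  rw [hun]
  have hterm : ∀ p ∈ (N t).primeFactors.filter (fun p => lab t p ≠ l),
      |(ex t p : ℝ) - r| * Real.log p ≤
        |u t p - 3 * (Real.log p / x)| * ht t + w * Real.log p := by
    intro p _
    have hlp : 0 ≤ Real.log (p : ℝ) := Real.log_natCast_nonneg p
    have e1 : (ex t p : ℝ) * Real.log p = u t p * ht t := by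
      unfold u
      field_simp
    have e2 : ((ex t p : ℝ) - r) * Real.log p =
        (u t p - 3 * (Real.log p / x)) * ht t + (3 * ht t / x - r) * Real.log p := by
      rw [sub_mul, e1]
      field_simp
      ring
    rw [← abs_of_nonneg hlp, ← abs_mul, abs_of_nonneg hlp, e2]
    refine (abs_add_le _ _).trans ?_
    rw [abs_mul, abs_mul, abs_of_pos H, abs_of_nonneg hlp]
    have := mul_le_mul_of_nonneg_right hw hlp
    linarith
  refine (Finset.sum_le_sum hterm).trans ?_
  rw [Finset.sum_add_distrib, ← Finset.sum_mul, ← Finset.mul_sum]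
  have h3 : ∑ p ∈ (N t).primeFactors.filter (fun p => lab t p ≠ l), Real.log (p : ℝ) ≤ x := by
    refine le_trans ?_ hrd
    unfold rd
    push_cast
    rw [Real.log_prod (fun p hp => by
      have : (0 : ℝ) < p := by exact_mod_cast (Nat.prime_of_mem_primeFactors hp).pos
      positivity)]
    exact Finset.sum_le_sum_of_subset_of_nonneg (Finset.filter_subset _ _)
      (fun p _ _ => Real.log_natCast_nonneg p)
  have hw0 : 0 ≤ w := (abs_nonneg _).trans hw
  have h4 := mul_le_mul_of_nonneg_left h3 hw0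
  have h5 := mul_le_mul_of_nonneg_right h.near H.le
  linarith

/-- The known primes have all the mass of two members and mass `d` in the third. -/
theorem NearD.good {d x τ : ℝ} (hd : 0 < d) {S : Finset ℕ} {l l1 l2 : Fin 3} (h12 : l1 ≠ l2)
    (h1 : l1 ≠ l) (h2 : l2 ≠ l) {t : ℕ × ℕ} (h : NearD d x τ S l t) (hb : 2 / d ≤ ht t)
    {S' : Finset ℕ} (hS' : S' = S ∪ (FP t l1 ∪ FP t l2)) :
    S' ⊆ (N t).primeFactors ∧ GoodD d S' t := by
  classical
  have hsub : S' ⊆ (N t).primeFactors := by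
    rw [hS']
    refine Finset.union_subset h.sub (Finset.union_subset ?_ ?_) <;>
      exact Finset.filter_subset _ _
  refine ⟨hsub, h.h, hsub, ?_, hb⟩
  rw [← sum_u_eq h.h, ← Finset.sum_sdiff hsub]
  have e1 : Disjoint ((N t).primeFactors \ S') S := by
    rw [Finset.disjoint_left]
    intro p hp hp2
    rw [Finset.mem_sdiff] at hp
    exact hp.2 (by rw [hS']; exact Finset.mem_union_left _ hp2)
  have e2 : ((N t).primeFactors \ S') ∪ S ⊆
      (N t).primeFactors.filter (fun p => lab t p = l) := by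
    intro p hp
    rw [Finset.mem_filter]
    rcases Finset.mem_union.mp hp with hp | hp
    · rw [Finset.mem_sdiff, hS'] at hp
      refine ⟨hp.1, ?_⟩
      rcases third_cases l1 l2 l h12 h1 h2 (lab t p) with c | c | c
      · exact absurd (Finset.mem_union_right _ (Finset.mem_union_left _
          (Finset.mem_filter.mpr ⟨hp.1, c⟩))) hp.2
      · exact absurd (Finset.mem_union_right _ (Finset.mem_union_right _
          (Finset.mem_filter.mpr ⟨hp.1, c⟩))) hp.2
      · exact c
    · exact ⟨h.sub hp, h.labS p hp⟩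
  have e3 := Finset.sum_le_sum_of_subset_of_nonneg e2 (f := u t) (fun p _ _ => u_nonneg h.h p)
  rw [Finset.sum_union e1] at e3
  have e4 := sum_lab_le_one h.h l
  have e5 := h.mass
  linarith

/-- The number of triples in a class. -/
theorem near_class (y0 : ℝ) (hy0 : ∀ y : ℝ, y0 ≤ y → 192 * Real.log (y + 1) ≤ y)
    {d eps θ : ℝ} (hd : 0 < d) (hd1 : d ≤ 1) (he : 0 < eps) (he1 : eps ≤ 1)
    (hθ : θ = eps * d / 300) {K0 : ℕ} (hK0 : 16 / d ≤ K0) (n : ℕ) (hx1 : 24 ≤ Real.log n)
    (hx2 : 144 / θ ≤ Real.log n) (hx3 : y0 ≤ Real.log n)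
    (S : Finset ℕ) (l : Fin 3) (T : Finset (ℕ × ℕ))
    (hD : ∀ t ∈ T, NearD d (Real.log n) (θ / 16) S l t) (hrd : ∀ t ∈ T, rd t ≤ n)
    (hK : ∀ t ∈ T, (8 / θ + 70 / d) * Real.log n ≤ ht t)
    (hc : ∀ t ∈ T, ∀ t' ∈ T, codeD K0 S t = codeD K0 S t')
    (hh : ∀ t ∈ T, ∀ t' ∈ T, ⌊Real.log (ht t) / Real.log (1 + θ / 24)⌋₊ =
      ⌊Real.log (ht t') / Real.log (1 + θ / 24)⌋₊)
    (FB : ℝ) (hFB : ∀ (S' : Finset ℕ) (T' : Finset (ℕ × ℕ)), T' ⊆ T →
      (∀ t ∈ T', GoodD d S' t) → (T'.card : ℝ) ≤ FB) :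
    (T.card : ℝ) ≤ ((∏ p ∈ S, p : ℕ) : ℝ) * (n : ℝ) ^ (eps / 4) * FB := by
  classical
  have hFB0 : 0 ≤ FB := by
    have := hFB ∅ ∅ (Finset.empty_subset _) (by simp)
    simpa using this
  set x := Real.log (n : ℝ) with hx
  have hx0 : 0 < x := by linarith
  have hn0 : (0 : ℝ) < n := by
    rcases Nat.eq_zero_or_pos n with h | h
    · rw [h] at hx
      simp at hx
      linarith
    · exact_mod_cast h
  rcases T.eq_empty_or_nonempty with rfl | hne
  · rw [Finset.card_empty]
    simp only [Nat.cast_zero]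
    positivity
  have hθ0 : 0 < θ := by rw [hθ]; positivity
  have hθ1 : θ ≤ 1 / 300 := by
    rw [hθ]
    have : eps * d ≤ 1 := by nlinarith
    linarith
  obtain ⟨t0, ht0, hmin⟩ := Finset.exists_min_image T ht hne
  have hI : ∀ t ∈ T, IsT t := fun t h => (hD t h).h
  have H0 := ht_pos (hI t0 ht0)
  have hSp : ∀ p ∈ S, p.Prime := fun p hp => Nat.prime_of_mem_primeFactors ((hD t0 ht0).sub hp)
  obtain ⟨l1, l2, h12, h1, h2⟩ : ∃ l1 l2 : Fin 3, l1 ≠ l2 ∧ l1 ≠ l ∧ l2 ≠ l := by
    clear * -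
    revert l
    decide
  have hK00 : (0 : ℝ) < K0 := lt_of_lt_of_le (by positivity) hK0
  have hK01 : 1 / (K0 : ℝ) ≤ d / 16 := by
    rw [div_le_iff₀ hd] at hK0
    rw [div_le_iff₀ hK00]
    linarith
  have hKx : ∀ t ∈ T, 8 / θ * x ≤ ht t ∧ 70 / d * x ≤ ht t := by
    intro t h
    have := hK t h
    have a1 : 0 ≤ 8 / θ * x := by positivity
    have a2 : 0 ≤ 70 / d * x := by positivity
    constructor <;> linarith
  have hHx : ∀ t ∈ T, 8 * x ≤ θ * ht t ∧ 70 * x ≤ d * ht t := by
    intro t h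
    obtain ⟨a1, a2⟩ := hKx t h
    constructor
    · have := mul_le_mul_of_nonneg_left a1 hθ0.le
      have e : θ * (8 / θ * x) = 8 * x := by field_simp
      linarith
    · have := mul_le_mul_of_nonneg_left a2 hd.le
      have e : d * (70 / d * x) = 70 * x := by field_simp
      linarith
  have hbig1 : ∀ t ∈ T, 1 ≤ ht t := by
    intro t ht'
    have := (hHx t ht').2
    have h3 := ht_pos (hI t ht')
    nlinarith
  have hbigd : ∀ t ∈ T, 2 / d ≤ ht t := by
    intro t ht'
    rw [div_le_iff₀ hd]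
    have := (hHx t ht').2
    nlinarith
  have hpt : ∀ t ∈ T, ∀ p ∈ S, lab t p = lab t0 p ∧
      ⌊u t p * (K0 * S.card)⌋₊ = ⌊u t0 p * (K0 * S.card)⌋₊ := by
    intro t ht' p hp
    have := congrFun (congrFun (hc t ht' t0 ht0) p) hp
    exact Prod.ext_iff.mp this
  have hratio : ∀ t ∈ T, ht t ≤ (1 + θ / 24) * ht t0 := by
    intro t ht'
    exact ratio_of_floor_eq (by linarith) (hbig1 t0 ht0) (hbig1 t ht') (hh t0 ht0 t ht')
  set m : ℕ → ℕ := fun p => T.inf' hne (fun t => ex t p) with hm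
  set M : ℕ := ∏ p ∈ S, p ^ m p with hM
  have hMdvd : ∀ t ∈ T, M ∣ comp t l := by
    intro t ht'
    rw [comp_eq (hI t ht') l, hM]
    refine dvd_trans (Finset.prod_dvd_prod_of_dvd _ (fun p => p ^ ex t p) ?_)
      (Finset.prod_dvd_prod_of_subset _ _ _ ?_)
    · intro p _
      exact pow_dvd_pow p (Finset.inf'_le _ ht')
    · intro p hp
      rw [Finset.mem_filter]
      exact ⟨(hD t ht').sub hp, (hD t ht').labS p hp⟩
  have hM0 : 0 < M := Finset.prod_pos (fun p hp => pow_pos (hSp p hp).pos _)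
  have hlogMle : Real.log M ≤ ht t0 := by
    have a1 : Real.log M ≤ Real.log (comp t0 l) := by
      apply Real.log_le_log (by exact_mod_cast hM0)
      exact_mod_cast Nat.le_of_dvd (comp_pos (hI t0 ht0) l) (hMdvd t0 ht0)
    exact a1.trans (log_comp_le (hI t0 ht0) l)
  have hlogM : 15 / 16 * (d * ht t0) ≤ Real.log M := by
    have e1 : Real.log M = ∑ p ∈ S, (m p : ℝ) * Real.log p := by
      rw [hM]
      push_cast
      rw [Real.log_prod (fun p hp => by
        have : (0 : ℝ) < p := by exact_mod_cast (hSp p hp).pos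
        positivity)]
      exact Finset.sum_congr rfl (fun p _ => Real.log_pow _ _)
    have e3 : d ≤ ∑ p ∈ S, u t0 p := (hD t0 ht0).mass
    rw [e1]
    have hterm : ∀ p ∈ S, (u t0 p - 1 / (K0 * S.card)) * ht t0 ≤
        (m p : ℝ) * Real.log p := by
      intro p hpS
      have hScard : (0 : ℝ) < S.card := by exact_mod_cast Finset.card_pos.mpr ⟨p, hpS⟩
      obtain ⟨t, ht', hmt⟩ := Finset.exists_mem_eq_inf' hne (fun t => ex t p)
      have hmt' : m p = ex t p := hmt
      rw [hmt']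
      have e4 : (ex t p : ℝ) * Real.log p = u t p * ht t := by
        have := ht_pos (hI t ht')
        unfold u
        field_simp
      rw [e4]
      have h3 := abs_sub_le_of_floor_eq (u_nonneg (hI t ht') p) (u_nonneg (hI t0 ht0) p)
        (by positivity) (hpt t ht' p hpS).2
      have h4 := (abs_le.mp h3).1
      have h5 := u_nonneg (hI t ht') p
      have h6 := hmin t ht'
      calc (u t0 p - 1 / (K0 * S.card)) * ht t0 ≤ u t p * ht t0 :=
            mul_le_mul_of_nonneg_right (by linarith) H0.le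
        _ ≤ u t p * ht t := mul_le_mul_of_nonneg_left h6 h5
    refine le_trans ?_ (Finset.sum_le_sum hterm)
    rw [← Finset.sum_mul, Finset.sum_sub_distrib, Finset.sum_const, nsmul_eq_mul]
    have h7 : (S.card : ℝ) * (1 / (K0 * S.card)) ≤ d / 16 := by
      rcases S.eq_empty_or_nonempty with hSe | hSne
      · rw [hSe]
        simp
        positivity
      · have hScard : (0 : ℝ) < S.card := by exact_mod_cast hSne.card_pos
        calc (S.card : ℝ) * (1 / (K0 * S.card)) = 1 / K0 := by field_simp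
          _ ≤ d / 16 := hK01
    have h8 : 15 / 16 * d ≤ ∑ p ∈ S, u t0 p - (S.card : ℝ) * (1 / (K0 * S.card)) := by
      linarith
    calc 15 / 16 * (d * ht t0) = 15 / 16 * d * ht t0 := by ring
      _ ≤ _ := mul_le_mul_of_nonneg_right h8 H0.le
  have hlogM64 : 64 * x ≤ Real.log M := by
    have := (hHx t0 ht0).2
    linarith
  set r : ℕ := ⌊3 * ht t0 / x⌋₊ with hr
  have hrle : (r : ℝ) ≤ 3 * ht t0 / x := Nat.floor_le (by positivity)
  have hrlt : 3 * ht t0 / x < (r : ℝ) + 1 := Nat.lt_floor_add_one _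
  have hHx0 := hHx t0 ht0
  have hH8 : 8 * x ≤ ht t0 := by nlinarith
  have hrx : 3 * ht t0 - x < r * x := by
    rw [div_lt_iff₀ hx0] at hrlt
    linarith
  have hrx' : (r : ℝ) * x ≤ 3 * ht t0 := by
    rwa [le_div_iff₀ hx0] at hrle
  have hr0 : 0 < r := by
    by_contra hcon
    have : r = 0 := by omega
    rw [this] at hrx
    simp at hrx
    linarith
  obtain ⟨M0, hM00, hM0cop, hM0log, hM0core⟩ := coreReal M r 7 (1 / 2) (2 * x) (θ * ht t0) hM0 hr0
    (by norm_num) le_rfl (by norm_num) (by norm_num; linarith) (by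
      -- 48 r ≤ θ H
      have a1 : 144 ≤ θ * x := by
        rw [div_le_iff₀ hθ0] at hx2
        linarith
      have a2 : 144 * ((r : ℝ) * x) ≤ θ * x * (3 * ht t0) := by
        have b1 : 144 * ((r : ℝ) * x) ≤ 144 * (3 * ht t0) := by linarith
        have b2 : 144 * (3 * ht t0) ≤ θ * x * (3 * ht t0) :=
          mul_le_mul_of_nonneg_right a1 (by positivity)
        linarith
      have a3 : 48 * (r : ℝ) * x ≤ θ * ht t0 * x := by linarith
      have a4 := le_of_mul_le_mul_right a3 hx0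
      norm_num
      linarith) (by
      have a1 : 2 * (2 * x) * (r : ℝ) = 4 * (r * x) := by ring
      rw [a1]
      linarith) (by
      have : 16 * (2 * x) / (1 / 2 : ℝ) = 64 * x := by ring
      rw [this]
      exact hlogM64) (by
      have a1 := hy0 (Real.log M) (by linarith)
      push_cast
      linarith)
  have hMpos : 0 < Real.log M := by linarith
  -- the bound for `M0`
  have hMrad : ∏ p ∈ M.primeFactors, p ≤ ∏ p ∈ S, p := by
    apply Finset.prod_le_prod_of_subset_of_one_le'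
    · intro p hp
      have hpp := Nat.prime_of_mem_primeFactors hp
      have hdv := Nat.dvd_of_mem_primeFactors hp
      rw [hM] at hdv
      obtain ⟨q, hq, hqd⟩ := (hpp.prime.dvd_finsetProd_iff _).mp hdv
      have := (Nat.prime_dvd_prime_iff_eq hpp (hSp q hq)).mp (hpp.dvd_of_dvd_pow hqd)
      rw [this]
      exact hq
    · intro p hp _
      exact (hSp p hp).one_lt.le
  have hSprod0 : (0 : ℝ) < ((∏ p ∈ S, p : ℕ) : ℝ) := by
    exact_mod_cast Finset.prod_pos (fun p hp => (hSp p hp).pos)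
  have hM0le : (M0 : ℝ) ≤ ((∏ p ∈ S, p : ℕ) : ℝ) * (n : ℝ) ^ (eps / 4) := by
    have a1 : Real.log ((∏ q ∈ M.primeFactors, q : ℕ) : ℝ) ≤
        Real.log ((∏ p ∈ S, p : ℕ) : ℝ) := by
      apply Real.log_le_log
      · exact_mod_cast Finset.prod_pos (fun q hq => (Nat.prime_of_mem_primeFactors hq).pos)
      · exact_mod_cast hMrad
    have a2 : 4 * (2 * x) * (θ * ht t0) / ((1 - 1 / 2) ^ 3 * Real.log M) ≤ eps / 4 * x := by
      rw [div_le_iff₀ (by positivity)]
      have b1 : 4 * (2 * x) * (θ * ht t0) = eps * x / 300 * 8 * (d * ht t0) := by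
        rw [hθ]; ring
      rw [b1]
      have b2 : d * ht t0 ≤ 16 / 15 * Real.log M := by linarith
      have b3 : 0 ≤ eps * x / 300 * 8 := by positivity
      have b4 := mul_le_mul_of_nonneg_left b2 b3
      have b5 : 0 ≤ eps * x * Real.log M := by positivity
      nlinarith
    have hM0R : (0 : ℝ) < M0 := by exact_mod_cast hM00
    have a3 : Real.log M0 ≤ Real.log (((∏ p ∈ S, p : ℕ) : ℝ) * (n : ℝ) ^ (eps / 4)) := by
      rw [Real.log_mul hSprod0.ne' (by positivity), Real.log_rpow hn0, ← hx]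
      linarith
    exact (Real.log_le_log_iff hM0R (by positivity)).mp a3
  -- logs of radicals
  have hlogrd : ∀ t ∈ T, Real.log (rd t) ≤ x := by
    intro t ht'
    apply Real.log_le_log
    · unfold rd
      exact_mod_cast Finset.prod_pos (fun q hq => (Nat.prime_of_mem_primeFactors hq).pos)
    · exact_mod_cast hrd t ht'
  have hPrlog : ∀ s ∈ T, ∀ t ∈ T, ∀ i j : Fin 3,
      Real.log ((Pr s i * Pr t j : ℕ) : ℝ) ≤ 2 * x := by
    intro s hs t ht' i j
    have hp1 : (0 : ℝ) < Pr s i := by exact_mod_cast Pr_pos s i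
    have hp2 : (0 : ℝ) < Pr t j := by exact_mod_cast Pr_pos t j
    push_cast
    rw [Real.log_mul hp1.ne' hp2.ne']
    have b1 : Real.log (Pr s i) ≤ x :=
      (Real.log_le_log hp1 (by exact_mod_cast Pr_le_rd s i)).trans (hlogrd s hs)
    have b2 : Real.log (Pr t j) ≤ x :=
      (Real.log_le_log hp2 (by exact_mod_cast Pr_le_rd t j)).trans (hlogrd t ht')
    linarith
  have hdev : ∀ t ∈ T, dev r t l1 + dev r t l2 ≤ θ * ht t0 / 2 := by
    intro t ht'
    have hw : |3 * ht t / x - r| ≤ θ / 8 * ht t0 / x + 1 := by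
      have b1 := hmin t ht'
      have b2 := hratio t ht'
      have c1 : 3 * ht t0 / x ≤ 3 * ht t / x := by gcongr
      have c2 : 3 * ht t / x ≤ 3 * ((1 + θ / 24) * ht t0) / x := by gcongr
      have c3 : 3 * ((1 + θ / 24) * ht t0) / x = 3 * ht t0 / x + θ / 8 * ht t0 / x := by ring
      have c4 : 0 ≤ θ / 8 * ht t0 / x := by positivity
      rw [abs_le]
      constructor <;> linarith
    have b3 := dev_le hx0 h12 h1 h2 (hD t ht') (hlogrd t ht') r _ hw
    have b4 := hratio t ht'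
    have b5 : (θ / 8 * ht t0 / x + 1) * x = θ / 8 * ht t0 + x := by field_simp
    rw [b5] at b3
    have b6 : θ / 16 * ht t ≤ θ / 8 * ht t0 := by
      have b7 : ht t ≤ 2 * ht t0 := by nlinarith
      have b8 := mul_le_mul_of_nonneg_left b7 (show 0 ≤ θ / 16 by positivity)
      linarith
    have b9 := hHx0.1
    have b10 : 0 < θ * ht t0 := by positivity
    linarith
  -- the residue classes
  haveI : NeZero M0 := ⟨hM00.ne'⟩
  set f : ℕ × ℕ → ZMod M0 := fun t => (Pr t l1 : ZMod M0) * ((Pr t l2 : ZMod M0))⁻¹ with hf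
  have hcop2 : ∀ t ∈ T, (Pr t l2).Coprime M0 := fun t ht' =>
    hM0cop _ (Pr_coprime (hI t ht') h2 (hMdvd t ht'))
  have hinv : ∀ t ∈ T, (Pr t l2 : ZMod M0) * ((Pr t l2 : ZMod M0))⁻¹ = 1 := fun t ht' =>
    ZMod.coe_mul_inv_eq_one _ (hcop2 t ht')
  have hfeq : ∀ s ∈ T, ∀ t ∈ T, f s = f t → FP s l1 = FP t l1 ∧ FP s l2 = FP t l2 := by
    intro s hs t ht' he'
    refine near_pair (hI s hs) (hI t ht') h12 h1 h2 (hMdvd s hs) (hMdvd t ht') hM0core ?_
      (hPrlog s hs t ht' l1 l2) (hPrlog t ht' s hs l1 l2) ?_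
    · rw [← ZMod.intCast_zmod_eq_zero_iff_dvd]
      push_cast
      have a1 := hinv s hs
      have a2 := hinv t ht'
      simp only [hf] at he'
      have a3 : (Pr s l1 : ZMod M0) * Pr t l2 = Pr t l1 * Pr s l2 := by
        calc (Pr s l1 : ZMod M0) * Pr t l2 =
            (Pr s l1 * ((Pr s l2 : ZMod M0))⁻¹) * (Pr s l2 * Pr t l2) := by
              rw [show (Pr s l1 : ZMod M0) * ((Pr s l2 : ZMod M0))⁻¹ * (Pr s l2 * Pr t l2) =
                (Pr s l1 : ZMod M0) * Pr t l2 * (Pr s l2 * ((Pr s l2 : ZMod M0))⁻¹) by ring, a1,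
                mul_one]
          _ = (Pr t l1 * ((Pr t l2 : ZMod M0))⁻¹) * (Pr s l2 * Pr t l2) := by rw [he']
          _ = Pr t l1 * Pr s l2 * (Pr t l2 * ((Pr t l2 : ZMod M0))⁻¹) := by ring
          _ = _ := by rw [a2, mul_one]
      rw [a3, sub_self]
    · have := hdev s hs
      have := hdev t ht'
      linarith
  have hcard : T.card ≤ ⌊FB⌋₊ * (T.image f).card := by
    apply Finset.card_le_mul_card_image
    intro c hc'
    rw [Finset.mem_image] at hc'
    obtain ⟨s, hs, rfl⟩ := hc'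
    apply Nat.le_floor
    apply hFB (S ∪ (FP s l1 ∪ FP s l2)) _ (Finset.filter_subset _ _)
    intro t ht'
    rw [Finset.mem_filter] at ht'
    obtain ⟨ht'', hft⟩ := ht'
    have e1 := hfeq t ht'' s hs hft
    exact ((hD t ht'').good hd h12 h1 h2 (hbigd t ht'') (by rw [e1.1, e1.2])).2
  have hcard2 : (T.image f).card ≤ M0 := by
    calc (T.image f).card ≤ (Finset.univ : Finset (ZMod M0)).card :=
          Finset.card_le_card (Finset.subset_univ _)
      _ = M0 := by rw [Finset.card_univ, ZMod.card]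
  have hfl : (⌊FB⌋₊ : ℝ) ≤ FB := Nat.floor_le hFB0
  calc (T.card : ℝ) ≤ (⌊FB⌋₊ : ℝ) * (T.image f).card := by exact_mod_cast hcard
    _ ≤ FB * M0 := by
        apply mul_le_mul hfl (by exact_mod_cast hcard2) (Nat.cast_nonneg _) hFB0
    _ ≤ FB * (((∏ p ∈ S, p : ℕ) : ℝ) * (n : ℝ) ^ (eps / 4)) :=
        mul_le_mul_of_nonneg_left hM0le hFB0
    _ = _ := by ring

end Pool.Agent.AbcF
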