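import Mathlib
import Pool.Agent.Lib.AbcF.NearClass

open Finset Filter Topology

namespace Pool.Agent.AbcF

open Pool.Agent.Lib.Pabc2 Pool.Agent.Lib.Pabc1

/-- A constant to the number of primes is a small power of the product. -/
theorem pow_card_le (C η : ℝ) (hC : 1 ≤ C) (hη : 0 < η) :
    ∃ D : ℝ, 1 ≤ D ∧ ∀ S : Finset ℕ, (∀ p ∈ S, p.Prime) →
      C ^ S.card ≤ D * ((∏ p ∈ S, p : ℕ) : ℝ) ^ η := by
  classical
  set L : ℕ := ⌈C ^ (1 / η)⌉₊ with hL
  refine ⟨C ^ L, one_le_pow₀ hC, fun S hS => ?_⟩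
  have h1 : (S.filter (fun p => p < L)).card ≤ L := by
    calc (S.filter (fun p => p < L)).card ≤ (Finset.range L).card := by
          apply Finset.card_le_card
          intro p hp
          exact Finset.mem_range.mpr (Finset.mem_filter.mp hp).2
      _ = L := Finset.card_range L
  have h2 : C ^ (S.filter (fun p => ¬ p < L)).card ≤ ((∏ p ∈ S, p : ℕ) : ℝ) ^ η := by
    have e1 : C ^ (S.filter (fun p => ¬ p < L)).card =
        ∏ _p ∈ S.filter (fun p => ¬ p < L), C := by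
      rw [Finset.prod_const]
    have e2 : ((∏ p ∈ S, p : ℕ) : ℝ) ^ η = ∏ p ∈ S, (p : ℝ) ^ η := by
      push_cast
      rw [← Real.finsetProd_rpow]
      intro p _
      positivity
    rw [e1, e2]
    have e3 : ∏ _p ∈ S.filter (fun p => ¬ p < L), C ≤
        ∏ p ∈ S.filter (fun p => ¬ p < L), (p : ℝ) ^ η := by
      apply Finset.prod_le_prod (fun _ _ => by linarith)
      intro p hp
      have hpL : L ≤ p := not_lt.mp (Finset.mem_filter.mp hp).2
      have hp1 : C ^ (1 / η) ≤ p := (Nat.le_ceil _).trans (by exact_mod_cast hpL)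
      have hC0 : 0 ≤ C := by linarith
      calc C = (C ^ (1 / η)) ^ η := by
            rw [← Real.rpow_mul hC0, one_div_mul_cancel hη.ne', Real.rpow_one]
        _ ≤ (p : ℝ) ^ η := Real.rpow_le_rpow (by positivity) hp1 hη.le
    refine e3.trans ?_
    apply Finset.prod_le_prod_of_subset_of_one_le (Finset.filter_subset _ _)
    · intro p _
      positivity
    · intro p hp _
      apply Real.one_le_rpow _ hη.le
      exact_mod_cast (hS p hp).one_lt.le
  have h3 : S.card = (S.filter (fun p => p < L)).card + (S.filter (fun p => ¬ p < L)).card :=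
    (Finset.card_filter_add_card_filter_not _).symm
  rw [h3, pow_add]
  exact mul_le_mul (pow_le_pow_right₀ hC h1) h2 (by positivity) (by positivity)

/-- The number of sets of primes with a bounded product. -/
theorem card_sets_le (P : Finset ℕ) (hP : ∀ p ∈ P, p.Prime) (X : ℝ) (hX : 0 ≤ X) :
    ((P.powerset.filter (fun S => ((∏ p ∈ S, p : ℕ) : ℝ) ≤ X)).card : ℝ) ≤ X := by
  classical
  have h1 : (P.powerset.filter (fun S => ((∏ p ∈ S, p : ℕ) : ℝ) ≤ X)).card ≤
      (Finset.Icc 1 ⌊X⌋₊).card := by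
    apply Finset.card_le_card_of_injOn (fun S => ∏ p ∈ S, p)
    · intro S hS
      have hS' : S ∈ P.powerset.filter (fun S => ((∏ p ∈ S, p : ℕ) : ℝ) ≤ X) := hS
      rw [Finset.mem_filter, Finset.mem_powerset] at hS'
      rw [Finset.mem_coe, Finset.mem_Icc]
      refine ⟨Finset.prod_pos (fun p hp => (hP p (hS'.1 hp)).pos), Nat.le_floor hS'.2⟩
    · intro S hS S' hS' he
      have a1 : S ∈ P.powerset.filter (fun S => ((∏ p ∈ S, p : ℕ) : ℝ) ≤ X) := hS
      have a2 : S' ∈ P.powerset.filter (fun S => ((∏ p ∈ S, p : ℕ) : ℝ) ≤ X) := hS'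
      rw [Finset.mem_filter, Finset.mem_powerset] at a1 a2
      have e1 := Nat.primeFactors_prod (fun p hp => hP p (a1.1 hp))
      have e2 := Nat.primeFactors_prod (fun p hp => hP p (a2.1 hp))
      simp only at he
      rw [← e1, ← e2, he]
  rw [Nat.card_Icc, Nat.add_sub_cancel] at h1
  calc _ ≤ ((⌊X⌋₊ : ℕ) : ℝ) := by exact_mod_cast h1
    _ ≤ X := Nat.floor_le hX

theorem log_le_y0 : ∀ y : ℝ, (200000 : ℝ) ≤ y → 192 * Real.log (y + 1) ≤ y := by
  intro y hy
  have h0 : (0 : ℝ) < y + 1 := by linarith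
  have hs : 0 < Real.sqrt (y + 1) := Real.sqrt_pos.mpr h0
  have h1 : Real.log (y + 1) = 2 * Real.log (Real.sqrt (y + 1)) := by
    rw [Real.log_sqrt h0.le]
    ring
  have h2 : Real.log (Real.sqrt (y + 1)) ≤ Real.sqrt (y + 1) := by
    have := Real.log_le_sub_one_of_pos hs
    linarith
  have h3 : Real.sqrt (y + 1) ≤ y / 384 := by
    apply Real.sqrt_le_iff.mpr
    constructor
    · positivity
    · nlinarith
  linarith

/-- Triples with a given set `S` and a given label. -/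
theorem near_fibre {d eps θ : ℝ} (hd : 0 < d) (hd1 : d ≤ 1) (he : 0 < eps) (he1 : eps ≤ 1)
    (hθ : θ = eps * d / 300) {K0 : ℕ} (hK0 : 16 / d ≤ K0) (n : ℕ) (A : ℝ) (hA : 0 ≤ A)
    (hx2 : 144 / θ ≤ Real.log n) (hx3 : (200000 : ℝ) ≤ Real.log n)
    (S : Finset ℕ) (l : Fin 3) (T : Finset (ℕ × ℕ))
    (hD : ∀ t ∈ T, NearD d (Real.log n) (θ / 16) S l t) (hrd : ∀ t ∈ T, rd t ≤ n)
    (hht : ∀ t ∈ T, ht t ≤ (n : ℝ) ^ A)
    (hK : ∀ t ∈ T, (8 / θ + 70 / d) * Real.log n ≤ ht t)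
    (D : ℝ) (hD1 : 1 ≤ D) (hDS : ∀ S : Finset ℕ, (∀ p ∈ S, p.Prime) →
      (BconD K0) ^ S.card ≤ D * ((∏ p ∈ S, p : ℕ) : ℝ) ^ (eps / 8)) :
    (T.card : ℝ) ≤ (((∏ p ∈ S, p : ℕ) : ℝ) * (n : ℝ) ^ (eps / 4) *
        ((K0 + 1) * (A * Real.log n / Real.log (1 + d / 4) + 1) * (D * (n : ℝ) ^ (eps / 8)))) *
      ((D * (n : ℝ) ^ (eps / 8)) * (A * Real.log n / Real.log (1 + θ / 24) + 1)) := by
  classical
  set x := Real.log (n : ℝ) with hx
  have hx0 : 0 < x := by linarith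
  have hn0 : (0 : ℝ) < n := by
    rcases Nat.eq_zero_or_pos n with h | h
    · rw [h] at hx
      simp at hx
      linarith
    · exact_mod_cast h
  have hn1 : (1 : ℝ) ≤ n := by
    have : 0 < n := by exact_mod_cast hn0
    exact_mod_cast this
  have hθ0 : 0 < θ := by rw [hθ]; positivity
  have hK00 : (0 : ℝ) < K0 := lt_of_lt_of_le (by positivity) hK0
  have hI : ∀ t ∈ T, IsT t := fun t h => (hD t h).h
  have hl1 : 0 < Real.log (1 + d / 4) := Real.log_pos (by linarith)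
  have hl2 : 0 < Real.log (1 + θ / 24) := Real.log_pos (by linarith)
  rcases T.eq_empty_or_nonempty with rfl | hne
  · rw [Finset.card_empty]
    simp only [Nat.cast_zero]
    positivity
  obtain ⟨t0, ht0⟩ := hne
  have hprodle : ∀ S' : Finset ℕ, ∀ t ∈ T, S' ⊆ (N t).primeFactors → ∏ p ∈ S', p ≤ n := by
    intro S' t ht' hS'
    refine le_trans ?_ (hrd t ht')
    unfold rd
    apply Finset.prod_le_prod_of_subset_of_one_le' hS'
    intro p hp _
    exact (Nat.prime_of_mem_primeFactors hp).one_lt.le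
  have hBS : ∀ S' : Finset ℕ, ∀ t ∈ T, S' ⊆ (N t).primeFactors →
      (BconD K0) ^ S'.card ≤ D * (n : ℝ) ^ (eps / 8) := by
    intro S' t ht' hS'
    refine (hDS S' (fun p hp => Nat.prime_of_mem_primeFactors (hS' hp))).trans ?_
    apply mul_le_mul_of_nonneg_left _ (by linarith)
    apply Real.rpow_le_rpow (Nat.cast_nonneg _) _ (by positivity)
    exact_mod_cast hprodle S' t ht' hS'
  set FB : ℝ := (K0 + 1) * (A * x / Real.log (1 + d / 4) + 1) * (D * (n : ℝ) ^ (eps / 8)) with hFBd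
  have hFB0 : 0 ≤ FB := by positivity
  have hFB : ∀ (S' : Finset ℕ) (T' : Finset (ℕ × ℕ)), T' ⊆ T →
      (∀ t ∈ T', GoodD d S' t) → (T'.card : ℝ) ≤ FB := by
    intro S' T' hT' hg
    rcases T'.eq_empty_or_nonempty with rfl | ⟨t1, ht1⟩
    · rw [Finset.card_empty]
      simpa using hFB0
    have h1 := card_goodD_le hd hd1 (K := K0) (le_trans (by
      apply div_le_div_of_nonneg_right (by norm_num) hd.le) hK0) ((n : ℝ) ^ A)
      (Real.one_le_rpow hn1 hA) S' T' (fun t ht' => ⟨hg t ht', hht t (hT' ht')⟩)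
    rw [Real.log_rpow hn0] at h1
    refine h1.trans ?_
    rw [hFBd]
    apply mul_le_mul_of_nonneg_left (hBS S' t1 (hT' ht1) (hg t1 ht1).sub)
    positivity
  set CB : ℝ := ((∏ p ∈ S, p : ℕ) : ℝ) * (n : ℝ) ^ (eps / 4) * FB with hCB
  have hCB0 : 0 ≤ CB := by positivity
  set f : ℕ × ℕ → ((p : ℕ) → p ∈ S → Fin 3 × ℕ) × ℕ :=
    fun t => (codeD K0 S t, ⌊Real.log (ht t) / Real.log (1 + θ / 24)⌋₊) with hf
  set C1 := T.image (codeD K0 S) with hC1
  set L : ℕ := ⌊A * x / Real.log (1 + θ / 24)⌋₊ with hL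
  have h1 : T.card ≤ ⌊CB⌋₊ * (T.image f).card := by
    apply Finset.card_le_mul_card_image
    intro c hc
    rw [Finset.mem_image] at hc
    obtain ⟨t1, ht1, rfl⟩ := hc
    apply Nat.le_floor
    have hm : ∀ t ∈ T.filter (fun a => f a = f t1), t ∈ T ∧ f t = f t1 := by
      intro t h
      rwa [Finset.mem_filter] at h
    apply near_class 200000 log_le_y0 hd hd1 he he1 hθ hK0 n (by linarith) hx2 hx3 S l
      (T.filter (fun a => f a = f t1))
    · exact fun t h => hD t (hm t h).1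
    · exact fun t h => hrd t (hm t h).1
    · exact fun t h => hK t (hm t h).1
    · intro t h t' h'
      have e1 := (hm t h).2
      have e2 := (hm t' h').2
      simp only [hf, Prod.mk.injEq] at e1 e2
      rw [e1.1, e2.1]
    · intro t h t' h'
      have e1 := (hm t h).2
      have e2 := (hm t' h').2
      simp only [hf, Prod.mk.injEq] at e1 e2
      rw [e1.2, e2.2]
    · intro S' T' hT' hg
      exact hFB S' T' (hT'.trans (Finset.filter_subset _ _)) hg
  have h2 : (T.image f) ⊆ C1 ×ˢ (Finset.range (L + 1)) := by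
    intro c hc
    rw [Finset.mem_image] at hc
    obtain ⟨t, ht', rfl⟩ := hc
    have hh0 := ht_pos (hI t ht')
    simp only [Finset.mem_product, hf]
    refine ⟨Finset.mem_image_of_mem _ ht', ?_⟩
    rw [Finset.mem_range, Nat.lt_succ_iff, hL]
    apply Nat.floor_le_floor
    apply div_le_div_of_nonneg_right _ hl2.le
    calc Real.log (ht t) ≤ Real.log ((n : ℝ) ^ A) := Real.log_le_log hh0 (hht t ht')
      _ = A * x := Real.log_rpow hn0 A
  have h3 : ((T.image f).card : ℝ) ≤ C1.card * (L + 1) := by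
    have := Finset.card_le_card h2
    rw [Finset.card_product, Finset.card_range] at this
    exact_mod_cast this
  have h4 : (C1.card : ℝ) ≤ BconD K0 ^ S.card := by
    apply card_codesD_le
    intro c hc
    rw [hC1, Finset.mem_image] at hc
    obtain ⟨t, ht', rfl⟩ := hc
    simp only [codeD]
    rw [Finset.sum_attach S (fun p => ⌊u t p * (K0 * S.card)⌋₊)]
    have hu := sum_u_le (hI t ht') (hD t ht').sub
    have h5 : ((∑ p ∈ S, ⌊u t p * (K0 * S.card)⌋₊ : ℕ) : ℝ) ≤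
        ((3 * K0 * S.card : ℕ) : ℝ) := by
      push_cast
      calc ∑ p ∈ S, (⌊u t p * (K0 * S.card)⌋₊ : ℝ) ≤ ∑ p ∈ S, u t p * (K0 * S.card) := by
            apply Finset.sum_le_sum
            intro p _
            apply Nat.floor_le
            have := u_nonneg (hI t ht') p
            positivity
        _ = (∑ p ∈ S, u t p) * (K0 * S.card) := by rw [Finset.sum_mul]
        _ ≤ 3 * (K0 * S.card) := by gcongr
        _ ≤ _ := by linarith
    exact_mod_cast h5
  have h4' : (C1.card : ℝ) ≤ D * (n : ℝ) ^ (eps / 8) := h4.trans (hBS S t0 ht0 (hD t0 ht0).sub)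
  have hLle : (L : ℝ) ≤ A * x / Real.log (1 + θ / 24) := Nat.floor_le (by positivity)
  have h6 : (⌊CB⌋₊ : ℝ) ≤ CB := Nat.floor_le hCB0
  calc (T.card : ℝ) ≤ (⌊CB⌋₊ : ℝ) * (T.image f).card := by exact_mod_cast h1
    _ ≤ CB * (C1.card * (L + 1)) := by gcongr
    _ ≤ CB * ((D * (n : ℝ) ^ (eps / 8)) * (A * x / Real.log (1 + θ / 24) + 1)) := by gcongr

/-- The statement of the count of nearly proportional exponents, the known part lying in one
member. -/
theorem count_near (A : ℝ) (hA : 0 ≤ A) (d ε σ : ℝ) (hd : 0 < d) (hd1 : d ≤ 1) (hε : 0 < ε)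
    (hσ : 0 ≤ σ) : ∃ τ : ℝ, 0 < τ ∧ ∃ K : ℝ,
    ∀ᶠ n : ℕ in atTop, ∀ T : Finset (ℕ × ℕ),
      (∀ t ∈ T, IsT t ∧ rd t ≤ n ∧ K * Real.log n ≤ ht t ∧ ht t ≤ (n : ℝ) ^ A ∧
        ∃ S ⊆ (N t).primeFactors, ∃ l : Fin 3, (∀ p ∈ S, lab t p = l) ∧
          ((∏ p ∈ S, p : ℕ) : ℝ) ≤ (n : ℝ) ^ σ ∧
          d ≤ ∑ p ∈ S, u t p ∧
          ∑ p ∈ (N t).primeFactors.filter (fun p => lab t p ≠ l),
            |u t p - 3 * (Real.log p / Real.log n)| ≤ τ) →
      (T.card : ℝ) ≤ (n : ℝ) ^ (2 * σ + ε) := by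
  classical
  obtain ⟨eps, hepsd⟩ : ∃ eps : ℝ, eps = min ε 1 := ⟨_, rfl⟩
  have he : 0 < eps := by rw [hepsd]; exact lt_min hε one_pos
  have he1 : eps ≤ 1 := by rw [hepsd]; exact min_le_right _ _
  have heε : eps ≤ ε := by rw [hepsd]; exact min_le_left _ _
  obtain ⟨θ, hθ⟩ : ∃ θ : ℝ, θ = eps * d / 300 := ⟨_, rfl⟩
  have hθ0 : 0 < θ := by rw [hθ]; positivity
  refine ⟨θ / 16, by positivity, 8 / θ + 70 / d, ?_⟩
  set K0 : ℕ := ⌈16 / d⌉₊ with hK0def
  have hK0' : 16 / d ≤ K0 := Nat.le_ceil _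
  have hK00 : (0 : ℝ) < K0 := lt_of_lt_of_le (by positivity) hK0'
  have hB1 : 1 ≤ BconD K0 := by
    unfold BconD
    have : (1 : ℝ) ≤ 2 ^ (3 * K0) := one_le_pow₀ (by norm_num)
    linarith
  obtain ⟨D, hD1, hDS⟩ := pow_card_le (BconD K0) (eps / 8) hB1 (by positivity)
  have hl1 : 0 < Real.log (1 + d / 4) := Real.log_pos (by linarith)
  have hl2 : 0 < Real.log (1 + θ / 24) := Real.log_pos (by linarith)
  set C0 : ℝ := 3 * ((K0 + 1) * (A / Real.log (1 + d / 4) + 1) * D) *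
    (D * (A / Real.log (1 + θ / 24) + 1)) with hC0
  have hlim : Tendsto (fun n : ℕ => Real.log (n : ℝ)) atTop atTop :=
    Real.tendsto_log_atTop.comp tendsto_natCast_atTop_atTop
  filter_upwards [hlim.eventually (eventually_ge_atTop 200000),
    hlim.eventually (eventually_ge_atTop (144 / θ)),
    ev_log_pow_le C0 2 (eps / 2) (by positivity), eventually_ge_atTop 1] with
    n hx3 hx2 hlogpow hn1 T hT
  set x := Real.log (n : ℝ) with hx
  have hx0 : 0 < x := by linarith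
  have hx1 : 1 ≤ x := by linarith
  have hn0 : (0 : ℝ) < n := by exact_mod_cast hn1
  have hn1' : (1 : ℝ) ≤ n := by exact_mod_cast hn1
  choose! S hSs l hl hSσ hSm hSn using fun t (h : t ∈ T) => (hT t h).2.2.2.2
  set P := Nat.primesLE n with hP
  have hPp : ∀ p ∈ P, p.Prime := fun p hp => (Nat.mem_primesLE.mp hp).2
  have hsubP : ∀ t ∈ T, (N t).primeFactors ⊆ P := by
    intro t htT p hp
    rw [hP, Nat.mem_primesLE]
    refine ⟨le_trans ?_ (hT t htT).2.1, Nat.prime_of_mem_primeFactors hp⟩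
    exact Nat.le_of_dvd (Finset.prod_pos (fun q hq => (Nat.prime_of_mem_primeFactors hq).pos))
      (Finset.dvd_prod_of_mem (fun p => p) hp)
  set F := P.powerset.filter (fun S => ((∏ p ∈ S, p : ℕ) : ℝ) ≤ (n : ℝ) ^ σ) with hF
  set G : ℝ := ((n : ℝ) ^ σ * (n : ℝ) ^ (eps / 4) *
        ((K0 + 1) * (A * x / Real.log (1 + d / 4) + 1) * (D * (n : ℝ) ^ (eps / 8)))) *
      ((D * (n : ℝ) ^ (eps / 8)) * (A * x / Real.log (1 + θ / 24) + 1)) with hG
  have hG0 : 0 ≤ G := by positivity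
  have hmaps : ∀ t ∈ T, (S t, l t) ∈ F ×ˢ (Finset.univ : Finset (Fin 3)) := by
    intro t ht'
    rw [Finset.mem_product, hF, Finset.mem_filter, Finset.mem_powerset]
    exact ⟨⟨(hSs t ht').trans (hsubP t ht'), hSσ t ht'⟩, Finset.mem_univ _⟩
  have h5 : (T.card : ℝ) ≤ (F ×ˢ (Finset.univ : Finset (Fin 3))).card * G := by
    rw [Finset.card_eq_sum_card_fiberwise (f := fun t => (S t, l t))
      (t := F ×ˢ (Finset.univ : Finset (Fin 3))) (fun t ht => hmaps t ht)]
    push_cast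
    rw [← nsmul_eq_mul, ← Finset.sum_const]
    apply Finset.sum_le_sum
    rintro ⟨S', l'⟩ hSl
    rw [Finset.mem_product, hF, Finset.mem_filter] at hSl
    have hm : ∀ t ∈ T.filter (fun t => (S t, l t) = (S', l')), t ∈ T ∧ S t = S' ∧ l t = l' := by
      intro t h
      rw [Finset.mem_filter, Prod.mk.injEq] at h
      exact h
    have key := near_fibre hd hd1 he he1 hθ hK0' n A hA hx2 hx3 S' l'
      (T.filter (fun t => (S t, l t) = (S', l')))
      (by
        intro t h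
        obtain ⟨a1, a2, a3⟩ := hm t h
        have b1 := hSs t a1
        have b2 := hl t a1
        have b3 := hSm t a1
        have b4 := hSn t a1
        rw [a2] at b1 b2 b3
        rw [a3] at b2 b4
        exact ⟨(hT t a1).1, b1, b2, b3, b4⟩)
      (fun t h => (hT t (hm t h).1).2.1) (fun t h => (hT t (hm t h).1).2.2.2.1)
      (fun t h => (hT t (hm t h).1).2.2.1) D hD1 hDS
    refine key.trans ?_
    rw [hG]
    have hS'le := hSl.1.2
    gcongr
  have hFc : (F.card : ℝ) ≤ (n : ℝ) ^ σ := card_sets_le P hPp _ (by positivity)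
  have hcard : ((F ×ˢ (Finset.univ : Finset (Fin 3))).card : ℝ) ≤ (n : ℝ) ^ σ * 3 := by
    rw [Finset.card_product, Finset.card_univ, Fintype.card_fin]
    push_cast
    gcongr
  have hGle : G * 3 ≤ (n : ℝ) ^ σ * (n : ℝ) ^ (eps / 2) * (C0 * x ^ (2 : ℝ)) := by
    have a1 : A * x / Real.log (1 + d / 4) + 1 ≤ (A / Real.log (1 + d / 4) + 1) * x := by
      have : A * x / Real.log (1 + d / 4) = A / Real.log (1 + d / 4) * x := by ring
      rw [this]
      nlinarith
    have a2 : A * x / Real.log (1 + θ / 24) + 1 ≤ (A / Real.log (1 + θ / 24) + 1) * x := by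
      have : A * x / Real.log (1 + θ / 24) = A / Real.log (1 + θ / 24) * x := by ring
      rw [this]
      nlinarith
    have e1 : (n : ℝ) ^ (eps / 2) = (n : ℝ) ^ (eps / 4) * ((n : ℝ) ^ (eps / 8) *
        (n : ℝ) ^ (eps / 8)) := by
      rw [← Real.rpow_add hn0, ← Real.rpow_add hn0]
      congr 1
      ring
    rw [hG, hC0, e1]
    calc ((n : ℝ) ^ σ * (n : ℝ) ^ (eps / 4) *
        ((K0 + 1) * (A * x / Real.log (1 + d / 4) + 1) * (D * (n : ℝ) ^ (eps / 8)))) *
        ((D * (n : ℝ) ^ (eps / 8)) * (A * x / Real.log (1 + θ / 24) + 1)) * 3 ≤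
        ((n : ℝ) ^ σ * (n : ℝ) ^ (eps / 4) *
        ((K0 + 1) * ((A / Real.log (1 + d / 4) + 1) * x) * (D * (n : ℝ) ^ (eps / 8)))) *
        ((D * (n : ℝ) ^ (eps / 8)) * ((A / Real.log (1 + θ / 24) + 1) * x)) * 3 := by gcongr
      _ = (n : ℝ) ^ σ * ((n : ℝ) ^ (eps / 4) * ((n : ℝ) ^ (eps / 8) *
        (n : ℝ) ^ (eps / 8))) * (3 * ((K0 + 1) * (A / Real.log (1 + d / 4) + 1) * D) *
        (D * (A / Real.log (1 + θ / 24) + 1)) * x ^ 2) := by ring
      _ = _ := by
        rw [show ((2 : ℝ)) = ((2 : ℕ) : ℝ) by norm_num, Real.rpow_natCast]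
  calc (T.card : ℝ) ≤ (F ×ˢ (Finset.univ : Finset (Fin 3))).card * G := h5
    _ ≤ ((n : ℝ) ^ σ * 3) * G := mul_le_mul_of_nonneg_right hcard hG0
    _ = (n : ℝ) ^ σ * (G * 3) := by ring
    _ ≤ (n : ℝ) ^ σ * ((n : ℝ) ^ σ * (n : ℝ) ^ (eps / 2) * (C0 * x ^ (2 : ℝ))) := by gcongr
    _ ≤ (n : ℝ) ^ σ * ((n : ℝ) ^ σ * (n : ℝ) ^ (eps / 2) * (n : ℝ) ^ (eps / 2)) := by gcongr
    _ = (n : ℝ) ^ (2 * σ + eps) := by
        rw [← Real.rpow_add hn0, ← Real.rpow_add hn0, ← Real.rpow_add hn0]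
        congr 1
        ring
    _ ≤ (n : ℝ) ^ (2 * σ + ε) := Real.rpow_le_rpow_of_exponent_le hn1' (by linarith)

end Pool.Agent.AbcF
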